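import Mathlib
import Pool.Agent.Y454.CD.Defs

/-!
# A counting criterion for Ahlfors regularity
-/

set_option autoImplicit false
set_option linter.unusedSectionVars false
set_option linter.deprecated false

namespace Pool.Agent.Y166.CD

open Pool.Agent.Helper376.LC Pool.Agent.Y454.CD MeasureTheory Filter
open scoped ENNReal NNReal Topology

/-- nets in balls -/
theorem exists_net {Z : Type} [MetricSpace Z] (z : Z) (r ρ B : ℝ) (hρ : 0 < ρ)
    (hup : ∀ E : Finset Z, (∀ x ∈ E, dist x z < r) →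
      (∀ x ∈ E, ∀ y ∈ E, x ≠ y → ρ ≤ dist x y) → (E.card : ℝ) ≤ B) :
    ∃ E : Finset Z, (E.card : ℝ) ≤ B ∧ (∀ x ∈ E, dist x z < r) ∧
      ∀ y, dist y z < r → ∃ x ∈ E, dist y x < ρ := by
  classical
  let P : ℕ → Prop := fun n => ∃ E : Finset Z, E.card = n ∧ (∀ x ∈ E, dist x z < r) ∧
    (∀ x ∈ E, ∀ y ∈ E, x ≠ y → ρ ≤ dist x y)
  have h0 : P 0 := ⟨∅, by simp, by simp, by simp⟩
  have hb : ∀ n, P n → n ≤ ⌊B⌋₊ := by
    rintro n ⟨E, rfl, h1, h2⟩
    exact Nat.le_floor (hup E h1 h2)
  obtain ⟨E, hE, h1, h2⟩ := Nat.findGreatest_spec (P := P) (Nat.zero_le ⌊B⌋₊) h0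
  refine ⟨E, hup E h1 h2, h1, fun y hy => ?_⟩
  by_contra hcon
  push Not at hcon
  have hyE : y ∉ E := fun h => by
    have := hcon y h
    rw [dist_self] at this
    linarith
  have hP : P (E.card + 1) := by
    refine ⟨insert y E, Finset.card_insert_of_notMem hyE, ?_, ?_⟩
    · intro x hx
      rcases Finset.mem_insert.1 hx with rfl | hx
      · exact hy
      · exact h1 x hx
    · intro a ha b hb hne
      rcases Finset.mem_insert.1 ha with ha | ha
      · rcases Finset.mem_insert.1 hb with hb | hb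
        · exact absurd (ha.trans hb.symm) hne
        · rw [ha]
          exact hcon b hb
      · rcases Finset.mem_insert.1 hb with hb | hb
        · rw [hb, dist_comm]
          exact hcon a ha
        · exact h2 a ha b hb hne
  have h3 := Nat.le_findGreatest (hb _ hP) hP
  omega

theorem ahlfors_of_count {Z : Type} [MetricSpace Z] (hc : CompactSpace Z) (Q K : ℝ) (hQ : 0 ≤ Q)
    (hK : 1 ≤ K)
    (hup : ∀ (z : Z) (r ρ : ℝ), 0 < ρ → ρ ≤ r → r ≤ Metric.diam (Set.univ : Set Z) →
      ∀ E : Finset Z, (∀ x ∈ E, dist x z < r) →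
      (∀ x ∈ E, ∀ y ∈ E, x ≠ y → ρ ≤ dist x y) → (E.card : ℝ) ≤ K * (r / ρ) ^ Q)
    (hlo : ∀ (z : Z) (r ρ : ℝ), 0 < ρ → ρ ≤ r → r ≤ Metric.diam (Set.univ : Set Z) →
      ∀ E : Finset Z, (∀ y, dist y z < r → ∃ x ∈ E, dist y x < ρ) →
      (r / ρ) ^ Q ≤ K * E.card) : AhlforsRegular Z := by
  classical
  letI : MeasurableSpace Z := borel Z
  haveI : BorelSpace Z := ⟨rfl⟩
  have h2Q : (1 : ℝ) ≤ 2 ^ Q := Real.one_le_rpow (by norm_num) hQ
  have hKK : (1 : ℝ) ≤ K ^ 2 := by nlinarith
  have hC : (1 : ℝ) ≤ K ^ 2 * 2 ^ Q := by nlinarith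
  refine ⟨hc, Q, K ^ 2 * 2 ^ Q, μH[Q], hQ, hC, fun z r hr hrd => ⟨?_, ?_⟩⟩
  · -- lower bound
    have hsub : Metric.closedBall z (r / 2) ⊆ Metric.ball z r :=
      Metric.closedBall_subset_ball (by linarith)
    refine le_trans ?_ (measure_mono hsub)
    rw [Measure.hausdorffMeasure_apply]
    refine le_iSup₂_of_le (ENNReal.ofReal (r / 4)) (by positivity) ?_
    refine le_iInf fun t => le_iInf fun hcov => le_iInf fun hdiam => ?_
    refine ENNReal.le_of_forall_pos_le_add fun η hη _ => ?_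
    obtain ⟨η', hη'0, hη'⟩ := ENNReal.exists_pos_sum_of_countable
      (ε := (η : ℝ≥0∞)) (by exact_mod_cast hη.ne') ℕ
    -- enlarge the sets
    have hlarge : ∀ n : ℕ, (t n).Nonempty → ∃ (x : Z) (s : ℝ), 0 < s ∧ s ≤ r / 2 ∧
        t n ⊆ Metric.ball x s ∧
        ENNReal.ofReal (s ^ Q) ≤ Metric.ediam (t n) ^ Q + η' n := by
      intro n ⟨x, hx⟩
      have hcont : ContinuousAt (fun s : ℝ => ENNReal.ofReal (s ^ Q)) (Metric.ediam (t n)).toReal := by
        apply ENNReal.continuous_ofReal.continuousAt.comp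
        exact Real.continuousAt_rpow_const _ _ (Or.inr hQ)
      have hfin : Metric.ediam (t n) ≠ ⊤ := ((hdiam n).trans_lt ENNReal.ofReal_lt_top).ne
      have hlt : ENNReal.ofReal ((Metric.ediam (t n)).toReal ^ Q) <
          Metric.ediam (t n) ^ Q + η' n := by
        rw [← ENNReal.ofReal_rpow_of_nonneg ENNReal.toReal_nonneg hQ, ENNReal.ofReal_toReal hfin]
        refine ENNReal.lt_add_right ?_ ?_
        · exact ENNReal.rpow_ne_top_of_nonneg hQ hfin
        · exact_mod_cast (hη'0 n).ne'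
      have hev := (hcont.eventually_lt continuousAt_const hlt)
      obtain ⟨d, hd0, hd⟩ := Metric.eventually_nhds_iff.1 hev
      set D := (Metric.ediam (t n)).toReal with hD
      have hD4 : D ≤ r / 4 := by
        rw [hD]
        exact ENNReal.toReal_le_of_le_ofReal (by linarith) (hdiam n)
      have hD0 : 0 ≤ D := ENNReal.toReal_nonneg
      refine ⟨x, D + min (d / 2) (r / 4), ?_, ?_, ?_, ?_⟩
      · have : 0 < min (d / 2) (r / 4) := lt_min (by linarith) (by linarith)
        linarith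
      · have := min_le_right (d / 2) (r / 4)
        linarith
      · intro y hy
        rw [Metric.mem_ball]
        have h1 : edist y x ≤ Metric.ediam (t n) := Metric.edist_le_ediam_of_mem hy hx
        have h2 : dist y x ≤ D := by
          rw [hD, dist_edist]
          exact ENNReal.toReal_mono hfin h1
        have : 0 < min (d / 2) (r / 4) := lt_min (by linarith) (by linarith)
        linarith
      · refine (hd ?_).le
        rw [Real.dist_eq, add_sub_cancel_left, abs_of_pos (lt_min (by linarith) (by linarith))]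
        have := min_le_left (d / 2) (r / 4)
        linarith
    haveI : Nonempty Z := ⟨z⟩
    choose! x s hs0 hs2 hts hsd using hlarge
    have hcompact : IsCompact (Metric.closedBall z (r / 2)) := Metric.isClosed_closedBall.isCompact
    obtain ⟨S, hS⟩ := hcompact.elim_finite_subcover
      (fun n : {n : ℕ // (t n).Nonempty} => Metric.ball (x n) (s n))
      (fun n => Metric.isOpen_ball) (by
        intro y hy
        obtain ⟨n, hn⟩ := Set.mem_iUnion.1 (hcov hy)
        exact Set.mem_iUnion.2 ⟨⟨n, ⟨y, hn⟩⟩, hts n ⟨y, hn⟩ hn⟩)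
    have hSne : S.Nonempty := by
      by_contra hcon
      rw [Finset.not_nonempty_iff_eq_empty] at hcon
      have := hS (Metric.mem_closedBall_self (by linarith))
      rw [hcon] at this
      simp at this
    obtain ⟨n₀, hn₀, hmin⟩ := S.exists_min_image (fun n => s n) hSne
    set ρ := s n₀ with hρ
    have hρ0 : 0 < ρ := hs0 _ n₀.2
    have hρ2 : ρ ≤ r / 2 := hs2 _ n₀.2
    have hnet : ∀ n ∈ S, ∃ E : Finset Z, (E.card : ℝ) ≤ K * (s n / ρ) ^ Q ∧
        (∀ y ∈ E, dist y (x n) < s n) ∧ ∀ y, dist y (x n) < s n → ∃ x ∈ E, dist y x < ρ := by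
      intro n hn
      exact exists_net (x n) (s n) ρ _ hρ0
        (hup (x n) (s n) ρ hρ0 (hmin n hn) ((hs2 n n.2).trans (by linarith)))
    choose! E hE1 hE2 hE3 using hnet
    have hmain := hlo z (r / 2) ρ hρ0 hρ2 (by linarith) (S.biUnion E) (by
      intro y hy
      obtain ⟨n, hn⟩ := Set.mem_iUnion.1 (hS (Metric.mem_closedBall.2 hy.le))
      obtain ⟨hn, hy'⟩ := Set.mem_iUnion.1 hn
      obtain ⟨w, hw, hyw⟩ := hE3 n hn y hy'
      exact ⟨w, Finset.mem_biUnion.2 ⟨n, hn, hw⟩, hyw⟩)
    have hcard : ((S.biUnion E).card : ℝ) ≤ ∑ n ∈ S, K * (s n / ρ) ^ Q := by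
      refine le_trans ?_ (Finset.sum_le_sum hE1)
      exact_mod_cast Finset.card_biUnion_le
    have hρQ : 0 < ρ ^ Q := Real.rpow_pos_of_pos hρ0 _
    have hsum : (K ^ 2 * 2 ^ Q)⁻¹ * r ^ Q ≤ ∑ n ∈ S, (s n) ^ Q := by
      have e1 : ∑ n ∈ S, K * (s n / ρ) ^ Q = K * (∑ n ∈ S, (s n) ^ Q) / ρ ^ Q := by
        rw [Finset.mul_sum, Finset.sum_div]
        refine Finset.sum_congr rfl fun n _ => ?_
        rw [Real.div_rpow (hs0 n n.2).le hρ0.le, mul_div_assoc]
      rw [e1] at hcard
      rw [Real.div_rpow (by linarith) hρ0.le, Real.div_rpow hr.le (by norm_num)] at hmain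
      have e2 : r ^ Q / 2 ^ Q / ρ ^ Q ≤ K * (K * (∑ n ∈ S, (s n) ^ Q) / ρ ^ Q) :=
        hmain.trans (mul_le_mul_of_nonneg_left hcard (by linarith))
      rw [mul_div_assoc', div_le_div_iff_of_pos_right hρQ] at e2
      rw [inv_mul_eq_div, div_le_iff₀ (by positivity)]
      rw [div_le_iff₀ (by positivity)] at e2
      linarith [e2]
    calc ENNReal.ofReal ((K ^ 2 * 2 ^ Q)⁻¹ * r ^ Q)
        ≤ ENNReal.ofReal (∑ n ∈ S, (s n) ^ Q) := ENNReal.ofReal_le_ofReal hsum
      _ = ∑ n ∈ S, ENNReal.ofReal ((s n) ^ Q) :=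
          ENNReal.ofReal_sum_of_nonneg fun n _ => Real.rpow_nonneg (hs0 n n.2).le _
      _ ≤ ∑ n ∈ S, ((⨆ _ : (t n).Nonempty, Metric.ediam (t n) ^ Q) + η' n) := by
          refine Finset.sum_le_sum fun n _ => (hsd n n.2).trans ?_
          gcongr
          exact le_iSup (fun _ : (t n).Nonempty => Metric.ediam (t n) ^ Q) n.2
      _ = ∑ n ∈ S.map ⟨Subtype.val, Subtype.val_injective⟩,
            ((⨆ _ : (t n).Nonempty, Metric.ediam (t n) ^ Q) + η' n) := by
          rw [Finset.sum_map]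
          rfl
      _ ≤ ∑' n : ℕ, ((⨆ _ : (t n).Nonempty, Metric.ediam (t n) ^ Q) + (η' n : ℝ≥0∞)) :=
          ENNReal.sum_le_tsum _
      _ = (∑' n : ℕ, ⨆ _ : (t n).Nonempty, Metric.ediam (t n) ^ Q) + ∑' n : ℕ, (η' n : ℝ≥0∞) :=
          ENNReal.tsum_add
      _ ≤ _ := by
          gcongr
  · -- upper bound
    have hnet : ∀ k : ℕ, ∃ E : Finset Z, (E.card : ℝ) ≤ K * (r / (r / (k + 1))) ^ Q ∧
        (∀ x ∈ E, dist x z < r) ∧ ∀ y, dist y z < r → ∃ x ∈ E, dist y x < r / (k + 1) := by
      intro k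
      have hk : (0 : ℝ) < k + 1 := by positivity
      exact exists_net z r (r / (k + 1)) _ (by positivity)
        (hup z r (r / (k + 1)) (by positivity) (div_le_self hr.le (by linarith)) hrd)
    choose E hE1 hE2 hE3 using hnet
    have hlim : Tendsto (fun k : ℕ => ENNReal.ofReal (2 * (r / (k + 1)))) atTop (𝓝 0) := by
      rw [← ENNReal.ofReal_zero]
      apply ENNReal.tendsto_ofReal
      have h1 := (tendsto_one_div_add_atTop_nhds_zero_nat (𝕜 := ℝ)).const_mul (2 * r)
      rw [mul_zero] at h1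
      refine h1.congr fun k => ?_
      ring
    have hdiam : ∀ (k : ℕ) (i : E k), Metric.ediam (Metric.ball (i : Z) (r / (k + 1))) ≤
        ENNReal.ofReal (2 * (r / (k + 1))) := by
      intro k i
      refine Metric.ediam_le fun a ha b hb => ?_
      rw [edist_dist]
      apply ENNReal.ofReal_le_ofReal
      rw [Metric.mem_ball] at ha hb
      have := dist_triangle_right a b (i : Z)
      linarith
    have h1 := Measure.hausdorffMeasure_le_liminf_sum (ι := fun k => (E k)) Q (Metric.ball z r)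
      (l := atTop) (fun k : ℕ => ENNReal.ofReal (2 * (r / (k + 1)))) hlim
      (fun k i => Metric.ball (i : Z) (r / (k + 1)))
      (Eventually.of_forall hdiam)
      (Eventually.of_forall fun k y hy => by
        obtain ⟨w, hw, hyw⟩ := hE3 k y hy
        exact Set.mem_iUnion.2 ⟨⟨w, hw⟩, hyw⟩)
    refine h1.trans ?_
    have hbound : ∀ k : ℕ, ∑ i : E k, Metric.ediam (Metric.ball (i : Z) (r / (k + 1))) ^ Q ≤
        ENNReal.ofReal (K ^ 2 * 2 ^ Q * r ^ Q) := by
      intro k
      have hk : (0 : ℝ) < k + 1 := by positivity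
      calc ∑ i : E k, Metric.ediam (Metric.ball (i : Z) (r / (k + 1))) ^ Q
          ≤ ∑ i : E k, ENNReal.ofReal ((2 * (r / (k + 1))) ^ Q) := by
            refine Finset.sum_le_sum fun i _ => ?_
            rw [← ENNReal.ofReal_rpow_of_nonneg (by positivity) hQ]
            exact ENNReal.rpow_le_rpow (hdiam k i) hQ
        _ = ENNReal.ofReal ((E k).card * (2 * (r / (k + 1))) ^ Q) := by
            rw [Finset.sum_const, Finset.card_univ, Fintype.card_coe, nsmul_eq_mul,
              ENNReal.ofReal_mul (by positivity), ENNReal.ofReal_natCast]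
        _ ≤ ENNReal.ofReal (K ^ 2 * 2 ^ Q * r ^ Q) := by
            apply ENNReal.ofReal_le_ofReal
            have e1 : r / (r / ((k : ℝ) + 1)) = k + 1 := by field_simp
            have e2 := hE1 k
            rw [e1] at e2
            calc ((E k).card : ℝ) * (2 * (r / (k + 1))) ^ Q
                ≤ (K * ((k : ℝ) + 1) ^ Q) * (2 * (r / (k + 1))) ^ Q :=
                  mul_le_mul_of_nonneg_right e2 (by positivity)
              _ = K * (2 ^ Q * r ^ Q) := by
                  rw [mul_assoc, ← Real.mul_rpow (by positivity) (by positivity),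
                    ← Real.mul_rpow (by norm_num) hr.le]
                  congr 2
                  field_simp
              _ ≤ K ^ 2 * 2 ^ Q * r ^ Q := by
                  rw [← mul_assoc]
                  have : K ≤ K ^ 2 := by nlinarith
                  gcongr
    exact (liminf_le_liminf (Eventually.of_forall hbound)).trans (liminf_const _).le

end Pool.Agent.Y166.CD
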