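import Mathlib
import Pool.Agent.Y454.CD.Basic

/-!
# Orbit points along rays, four point condition
-/

set_option autoImplicit false
set_option linter.unusedSectionVars false
set_option linter.deprecated false

namespace Pool.Agent.Y166.CD

open Pool.Agent.Helper376.LC Pool.Agent.Y454.CD

theorem four {X : Type} [MetricSpace X] {δ : ℝ}
    (hyp : ∀ o x y z : X, min (gprod o x z) (gprod o z y) - δ ≤ gprod o x y) (a b c e : X) :
    dist a c + dist b e ≤ max (dist a b + dist c e) (dist b c + dist a e) + 2 * δ := by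
  have h := hyp e a c b
  unfold gprod at h
  have h1 := le_max_left (dist a b + dist c e) (dist b c + dist a e)
  have h2 := le_max_right (dist a b + dist c e) (dist b c + dist a e)
  rcases min_choice ((dist a e + dist b e - dist a b) / 2) ((dist b e + dist c e - dist b c) / 2)
    with h3 | h3 <;> rw [h3] at h <;> linarith

section
variable {G X : Type} [Group G] [MetricSpace X] [MulAction G X] {o : X} {δ R : ℝ}

/-- points on a geodesic -/
theorem exists_pt (hgeo : GeodesicSpace X) (x y : X) {t : ℝ} (h0 : 0 ≤ t) (h1 : t ≤ dist x y) :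
    ∃ p : X, dist x p = t ∧ dist p y = dist x y - t := by
  obtain ⟨γ, e1, e2, h⟩ := hgeo x y
  refine ⟨γ t, ?_, ?_⟩
  · have h2 := h 0 ⟨le_rfl, dist_nonneg⟩ t ⟨h0, h1⟩
    rw [e1, zero_sub, abs_neg, abs_of_nonneg h0] at h2
    exact h2
  · have h2 := h t ⟨h0, h1⟩ (dist x y) ⟨dist_nonneg, le_rfl⟩
    rw [e2, abs_sub_comm, abs_of_nonneg (by linarith)] at h2
    exact h2

/-- orbit points near a ray to a boundary point -/
theorem ray_pt (H : Hyp G X o δ R) (ξ : Boundary X) {t : ℝ} (ht : 0 ≤ t) :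
    ∃ h : G, |dist o (h • o) - t| ≤ R ∧ PB o (t - δ - R) (h • o) ξ := by
  obtain ⟨w, hw⟩ := Quot.exists_rep ξ
  obtain ⟨N, hN⟩ := w.conv o t
  have hx : t ≤ dist o (w.seq N) := by
    have := hN N le_rfl N le_rfl
    rwa [j7_gprod_self] at this
  obtain ⟨p, hp1, hp2⟩ := exists_pt H.geo o (w.seq N) ht hx
  obtain ⟨h, hh⟩ := H.cob p
  have h1 : |dist o (h • o) - t| ≤ R := by
    rw [abs_le]
    have := dist_triangle o p (h • o)
    have h2 := dist_triangle o (h • o) p
    rw [dist_comm (h • o) p] at h2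
    constructor <;> linarith
  refine ⟨h, h1, w, hw, N, fun n hn => ?_⟩
  have g1 : gprod o p (w.seq N) = t := by
    unfold gprod
    rw [dist_comm p o, dist_comm (w.seq N) o, hp1, hp2]; ring
  have g2 := hN N le_rfl n hn
  have g3 := H.hyp o p (w.seq n) (w.seq N)
  rw [g1, min_eq_left g2] at g3
  have g4 := j7_gprod_sub_le o p (h • o) (w.seq n)
  linarith

/-- separation of the orbit points near the rays to different boundary points -/
theorem sep_pt (H : Hyp G X o δ R) {ξ η : Boundary X} {R₀ : ℝ} (h0 : ¬ Near o R₀ ξ η) {x y : X}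
    (hx : PB o (R₀ + 2 * δ) x ξ) (hy : PB o (R₀ + 2 * δ) y η) : gprod o x y ≤ R₀ + 2 * δ := by
  by_contra hcon
  push Not at hcon
  have h1 := hx.move H.hyp hcon.le
  have h2 := Near.of_PB H.hyp (h1.mono (show R₀ + δ ≤ _ by linarith))
    (hy.mono (show R₀ + δ ≤ _ by linarith [H.nonneg]))
  exact h0 (h2.mono' (by linarith))

theorem not_near (H : Hyp G X o δ R) {ξ η : Boundary X} (h : ξ ≠ η) : ∃ R₀, ¬ Near o R₀ ξ η := by
  by_contra hcon
  push Not at hcon
  exact h (j7_eq_of_near H.nonneg H.hyp o ξ η hcon)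

/-- three directions -/
theorem three (H : Hyp G X o δ R) [Infinite (Boundary X)] :
    ∃ C₁ t₀ : ℝ, 0 ≤ C₁ ∧ 0 ≤ t₀ ∧ ∀ t ≥ t₀, ∃ h : Fin 3 → G,
      (∀ i, |dist o (h i • o) - t| ≤ R) ∧ ∀ i j, i ≠ j → gprod o (h i • o) (h j • o) ≤ C₁ := by
  obtain ⟨ξ, hξ⟩ : ∃ ξ : Fin 3 → Boundary X, Function.Injective ξ := by
    have := Infinite.natEmbedding (Boundary X)
    exact ⟨fun i => this i.1, fun i j hij => Fin.ext (this.injective hij)⟩
  have hne : ∀ p : Fin 3 × Fin 3, ∃ R₀ : ℝ, p.1 ≠ p.2 → ¬ Near o R₀ (ξ p.1) (ξ p.2) := by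
    intro p
    by_cases h : p.1 = p.2
    · exact ⟨0, fun h' => absurd h h'⟩
    · obtain ⟨R₀, h0⟩ := not_near H (hξ.ne h)
      exact ⟨R₀, fun _ => h0⟩
  choose r hr using hne
  have hb : ∀ p, r p ≤ ∑ q, |r q| := fun p => (le_abs_self _).trans
    (Finset.single_le_sum (f := fun q => |r q|) (fun _ _ => abs_nonneg _) (Finset.mem_univ p))
  set S : ℝ := ∑ q, |r q| with hS
  have hS0 : 0 ≤ S := Finset.sum_nonneg fun _ _ => abs_nonneg _
  have hR := H.nonneg'
  have hδ := H.nonneg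
  refine ⟨S + 2 * δ, S + 3 * δ + R, by linarith, by linarith, fun t ht => ?_⟩
  have hray := fun i => ray_pt H (ξ i) (t := t) (by linarith)
  choose h h1 h2 using hray
  refine ⟨h, h1, fun i j hij => ?_⟩
  have h3 : ¬ Near o S (ξ i) (ξ j) := fun hn => hr (i, j) hij (hn.mono' (hb (i, j)))
  exact sep_pt H h3 ((h2 i).mono (by linarith)) ((h2 j).mono (by linarith))

/-- two directions away from a given point -/
theorem two_away (H : Hyp G X o δ R) [Infinite (Boundary X)] :
    ∃ C₁ t₀ : ℝ, 0 ≤ C₁ ∧ 0 ≤ t₀ ∧ ∀ t ≥ t₀, ∀ z : X, ∃ h h' : G,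
      |dist o (h • o) - t| ≤ R ∧ |dist o (h' • o) - t| ≤ R ∧
      gprod o (h • o) (h' • o) ≤ C₁ ∧ gprod o (h • o) z ≤ C₁ + δ ∧ gprod o (h' • o) z ≤ C₁ + δ := by
  obtain ⟨C₁, t₀, hC, ht0, hthree⟩ := three H
  refine ⟨C₁, t₀, hC, ht0, fun t ht z => ?_⟩
  obtain ⟨h, h1, h2⟩ := hthree t ht
  have key : ∀ i j, i ≠ j → gprod o (h i • o) z ≤ C₁ + δ ∨ gprod o (h j • o) z ≤ C₁ + δ := by
    intro i j hij
    by_contra hcon
    push Not at hcon
    have h3 := H.hyp o (h i • o) (h j • o) z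
    rw [gprod_comm o z (h j • o)] at h3
    have h4 := lt_min hcon.1 hcon.2
    have h5 := h2 i j hij
    linarith
  rcases key 0 1 (by decide) with h3 | h3
  · rcases key 1 2 (by decide) with h4 | h4
    · exact ⟨h 0, h 1, h1 0, h1 1, h2 0 1 (by decide), h3, h4⟩
    · exact ⟨h 0, h 2, h1 0, h1 2, h2 0 2 (by decide), h3, h4⟩
  · rcases key 0 2 (by decide) with h4 | h4
    · exact ⟨h 0, h 1, h1 0, h1 1, h2 0 1 (by decide), h4, h3⟩
    · exact ⟨h 1, h 2, h1 1, h1 2, h2 1 2 (by decide), h3, h4⟩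

/-- the main estimate -/
theorem displ (H : Hyp G X o δ R) {C₁ t n N : ℝ} {h h' g₀ g₁ : G}
    (hh : |dist o (h • o) - t| ≤ R) (hh' : |dist o (h' • o) - t| ≤ R)
    (hz : gprod o (h • o) (g₀ • o) ≤ C₁ + δ) (hz' : gprod o (h' • o) (g₀ • o) ≤ C₁ + δ)
    (hN : N - δ ≤ gprod o ((h * g₀) • o) (g₀ • o)) (hN' : N - δ ≤ gprod o ((h' * g₀) • o) (g₀ • o))
    (w1 : dist o (g₁ • o) ≤ n + R) (w2 : dist (g₁ • o) (g₀ • o) ≤ dist o (g₀ • o) - n + R)
    (hn : 2 * t + 3 * R + 2 * δ ≤ n) (hNn : n + t + 2 * R + 2 * δ ≤ N) (hC : 0 ≤ C₁) (ht : 0 ≤ t) :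
    dist o ((g₁⁻¹ * (h⁻¹ * h') * g₁) • o) ≤ 4 * R + 2 * C₁ + 8 * δ := by
  have hδ := H.nonneg
  have hR := H.nonneg'
  set z := g₀ • o with hzdef
  set w := g₁ • o with hwdef
  -- the point `h w` is closer to `z` than `x = h o` by `n`
  have close : ∀ f : G, |dist o (f • o) - t| ≤ R → N - δ ≤ gprod o ((f * g₀) • o) z →
      dist (f • w) z ≤ dist (f • o) z - n + R + 2 * δ := by
    intro f hf hfN
    rw [abs_le] at hf
    have e1 : dist (f • o) (f • z) = dist o z := H.iso f o z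
    have e2 : dist (f • w) (f • o) = dist w o := H.iso f w o
    have e3 : dist (f • w) (f • z) = dist w z := H.iso f w z
    have e4 : (f * g₀) • o = f • z := by rw [hzdef, mul_smul]
    rw [e4] at hfN
    unfold gprod at hfN
    have e5 := four H.hyp (f • w) (f • o) z (f • z)
    have e6 : dist (f • z) o ≤ dist o z + dist o (f • o) := by
      have := dist_triangle (f • z) (f • o) o
      rw [dist_comm (f • z) (f • o), e1, dist_comm (f • o) o] at this
      exact this
    have e7 : dist o z ≤ dist o (f • o) + dist (f • o) z := dist_triangle _ _ _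
    rw [e1, e2, e3] at e5
    rw [dist_comm w o] at e5
    rw [dist_comm z (f • z)] at e5
    rw [dist_comm z o] at hfN
    rcases le_total (dist o w + dist (f • z) z) (dist (f • o) z + dist w z) with h1 | h1
    · rw [max_eq_right h1] at e5
      linarith
    · rw [max_eq_left h1] at e5
      linarith
  have c1 := close h hh hN
  have c2 := close h' hh' hN'
  rw [abs_le] at hh hh'
  have dx : ∀ f : G, -R ≤ dist o (f • o) - t → dist o (f • o) - t ≤ R →
      gprod o (f • o) z ≤ C₁ + δ → t + dist o z - R - 2 * C₁ - 2 * δ ≤ dist (f • o) z ∧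
      dist (f • o) z ≤ t + dist o z + R := by
    intro f f1 f2 f3
    unfold gprod at f3
    have f4 := dist_triangle (f • o) o z
    rw [dist_comm (f • o) o] at f3 f4
    rw [dist_comm z o] at f3
    constructor <;> linarith
  obtain ⟨x1, x2⟩ := dx h hh.1 hh.2 hz
  obtain ⟨y1, y2⟩ := dx h' hh'.1 hh'.2 hz'
  have e2 : dist (h • w) (h • o) = dist w o := H.iso h w o
  have e2' : dist (h' • w) (h' • o) = dist w o := H.iso h' w o
  rw [dist_comm w o] at e2 e2'
  -- distance from `h' w` to `h o`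
  have f1 := four H.hyp (h' • w) (h' • o) (h • o) z
  have f2 : dist (h' • o) (h • o) ≤ 2 * t + 2 * R := by
    have := dist_triangle (h' • o) o (h • o)
    rw [dist_comm (h' • o) o] at this
    linarith
  have f3 : dist (h' • w) (h • o) ≤ n + 3 * R + 2 * C₁ + 4 * δ := by
    rw [e2'] at f1
    rcases le_total (dist o w + dist (h • o) z) (dist (h' • o) (h • o) + dist (h' • w) z)
      with h1 | h1
    · rw [max_eq_right h1] at f1
      linarith
    · rw [max_eq_left h1] at f1
      linarith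
  have f4 := four H.hyp (h • w) z (h' • w) (h • o)
  rw [e2, dist_comm z (h • o), dist_comm z (h' • w)] at f4
  have f5 : dist (h • w) (h' • w) ≤ 4 * R + 2 * C₁ + 8 * δ := by
    rcases le_total (dist (h • w) z + dist (h' • w) (h • o)) (dist (h' • w) z + dist o w)
      with h1 | h1
    · rw [max_eq_right h1] at f4
      linarith
    · rw [max_eq_left h1] at f4
      linarith
  have f6 : dist o ((g₁⁻¹ * (h⁻¹ * h') * g₁) • o) = dist (h • w) (h' • w) := by
    rw [← H.iso (h * g₁) o, ← mul_smul]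
    have q1 : h * g₁ * (g₁⁻¹ * (h⁻¹ * h') * g₁) = h' * g₁ := by group
    rw [q1, mul_smul, mul_smul]
  rw [f6]
  exact f5

theorem stC1 : StC1 := by
  intro G X _ _ _ _ o δ R H hinf
  by_contra hcon
  push Not at hcon
  obtain ⟨C₁, t₀, hC, ht0, htwo⟩ := two_away H
  have hδ := H.nonneg
  have hR := H.nonneg'
  set C₂ : ℝ := 4 * R + 2 * C₁ + 8 * δ with hC2
  have hfin := H.fin C₂
  set A : ℕ := hfin.toFinset.card with hA
  set s : ℝ := 2 * R + C₁ + 1 with hs
  have hs0 : 0 < s := by linarith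
  set T : ℝ := t₀ + A * s with hT
  have hA0 : (0 : ℝ) ≤ A * s := by positivity
  set n : ℝ := 2 * T + 3 * R + 2 * δ with hn
  set N : ℝ := n + T + 2 * R + 2 * δ with hN
  have hT0 : 0 ≤ T := by linarith
  have hn0 : 0 ≤ n := by linarith
  have hN0 : 0 ≤ N := by linarith
  obtain ⟨a, g₀, hag⟩ := hcon {f : G | dist o (f • o) ≤ N} N (H.fin N)
  have h1 := hag 1 (by rw [Set.mem_setOf_eq, one_smul, dist_self]; exact hN0)
  rw [one_mul] at h1
  have hz : N ≤ dist o (g₀ • o) := h1.le.trans (j7_gprod_le_right _ _ _)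
  have hfg : ∀ f : G, dist o (f • o) ≤ N → N - δ ≤ gprod o ((f * g₀) • o) (g₀ • o) := by
    intro f hf
    have h2 := hag f hf
    have h3 := H.hyp o ((f * g₀) • o) (g₀ • o) (a • o)
    rw [gprod_comm o ((f * g₀) • o) (a • o)] at h3
    have h4 := le_min h2.le h1.le
    linarith
  obtain ⟨p, hp1, hp2⟩ := exists_pt H.geo o (g₀ • o) hn0 (by linarith)
  obtain ⟨g₁, hg1⟩ := H.cob p
  have w1 : dist o (g₁ • o) ≤ n + R := by
    have := dist_triangle o p (g₁ • o); linarith
  have w2 : dist (g₁ • o) (g₀ • o) ≤ dist o (g₀ • o) - n + R := by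
    have := dist_triangle (g₁ • o) p (g₀ • o)
    rw [dist_comm (g₁ • o) p] at this
    linarith
  -- the elements
  have hk : ∀ k : Fin (A + 1), ∃ h h' : G, |dist o (h • o) - (t₀ + k * s)| ≤ R ∧
      |dist o (h' • o) - (t₀ + k * s)| ≤ R ∧ gprod o (h • o) (h' • o) ≤ C₁ ∧
      g₁⁻¹ * (h⁻¹ * h') * g₁ ∈ hfin.toFinset := by
    intro k
    have hk0 : (0 : ℝ) ≤ k * s := by positivity
    have hkA : (k : ℝ) * s ≤ A * s := by
      have : ((k : ℕ) : ℝ) ≤ A := by exact_mod_cast Nat.lt_succ_iff.1 k.2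
      exact mul_le_mul_of_nonneg_right this hs0.le
    obtain ⟨h, h', a1, a2, a3, a4, a5⟩ := htwo (t₀ + k * s) (by linarith) (g₀ • o)
    refine ⟨h, h', a1, a2, a3, ?_⟩
    rw [Set.Finite.mem_toFinset, Set.mem_setOf_eq]
    have b1 := (abs_le.1 a1).2
    have b2 := (abs_le.1 a2).2
    exact displ H a1 a2 a4 a5 (hfg h (by linarith)) (hfg h' (by linarith)) w1 w2
      (by linarith) (by linarith) hC (by linarith)
  choose h h' a1 a2 a3 a4 using hk
  have hcard : Fintype.card (Fin (A + 1)) ≤ hfin.toFinset.card := by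
    rw [← Finset.card_univ]
    refine Finset.card_le_card_of_injOn (fun k => g₁⁻¹ * ((h k)⁻¹ * h' k) * g₁)
      (fun k _ => a4 k) ?_
    intro k _ l _ hkl
    have hkl' : (h k)⁻¹ * h' k = (h l)⁻¹ * h' l := by
      have := mul_right_cancel hkl
      exact mul_left_cancel this
    by_contra hne
    have key : ∀ i j : Fin (A + 1), i < j → (h i)⁻¹ * h' i = (h j)⁻¹ * h' j → False := by
      intro i j hij he
      have d1 : dist (h i • o) (h' i • o) = dist (h j • o) (h' j • o) := by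
        rw [← H.iso (h i)⁻¹, ← H.iso (h j)⁻¹ (h j • o), inv_smul_smul, inv_smul_smul, ← mul_smul,
          ← mul_smul, he]
      have d2 : dist (h i • o) (h' i • o) ≤ 2 * (t₀ + i * s) + 2 * R := by
        have := dist_triangle (h i • o) o (h' i • o)
        rw [dist_comm (h i • o) o] at this
        have b1 := (abs_le.1 (a1 i)).2
        have b2 := (abs_le.1 (a2 i)).2
        linarith
      have d3 : 2 * (t₀ + j * s) - 2 * R - 2 * C₁ ≤ dist (h j • o) (h' j • o) := by
        have := a3 j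
        unfold gprod at this
        rw [dist_comm (h j • o) o, dist_comm (h' j • o) o] at this
        have b1 := (abs_le.1 (a1 j)).1
        have b2 := (abs_le.1 (a2 j)).1
        linarith
      have d4 : ((i : ℕ) : ℝ) + 1 ≤ ((j : ℕ) : ℝ) := by exact_mod_cast hij
      have d5 : (((i : ℕ) : ℝ) + 1) * s ≤ ((j : ℕ) : ℝ) * s := mul_le_mul_of_nonneg_right d4 hs0.le
      linarith
    rcases lt_trichotomy k l with hlt | heq | hlt
    · exact key k l hlt hkl'
    · exact hne heq
    · exact key l k hlt hkl'.symm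
  rw [Fintype.card_fin] at hcard
  omega

end

end Pool.Agent.Y166.CD
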