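import Mathlib
import Pool.Agent.Y166.CD.Hyp
import Pool.Agent.Y454.CD.Tools

/-!
# Growth of the orbit: purely exponential
-/

set_option autoImplicit false
set_option linter.unusedSectionVars false
set_option linter.deprecated false

namespace Pool.Agent.Y166.CD

open Pool.Agent.Helper376.LC Pool.Agent.Y454.CD Filter
open scoped Topology

/-- Fekete in both directions -/
theorem fekete (b : ℕ → ℝ) (c K : ℝ) (hc : 0 < c) (hK : 0 < K) (hb : ∀ n, 1 ≤ b n)
    (h1 : ∀ m n, c * (b m * b n) ≤ b (m + n)) (h2 : ∀ m n, b (m + n) ≤ K * (b m * b n)) :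
    ∃ h C : ℝ, 0 ≤ h ∧ 1 ≤ C ∧ ∀ n : ℕ, b n ≤ C * Real.exp (h * n) ∧
      Real.exp (h * n) ≤ C * b n := by
  have hb0 : ∀ n, 0 < b n := fun n => lt_of_lt_of_le one_pos (hb n)
  set L := max 0 (Real.log K) with hL
  set M := max 0 (- Real.log c) with hM
  have hL0 : 0 ≤ L := le_max_left _ _
  have hM0 : 0 ≤ M := le_max_left _ _
  have hu : Subadditive (fun n : ℕ => Real.log (b n) + L) := by
    intro m n
    have e1 := Real.log_le_log (hb0 _) (h2 m n)
    rw [Real.log_mul hK.ne' (mul_pos (hb0 m) (hb0 n)).ne', Real.log_mul (hb0 m).ne' (hb0 n).ne'] at e1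
    have e2 : Real.log K ≤ L := le_max_right _ _
    show Real.log (b (m + n)) + L ≤ (Real.log (b m) + L) + (Real.log (b n) + L)
    linarith
  have hv : Subadditive (fun n : ℕ => - Real.log (b n) + M) := by
    intro m n
    have e1 := Real.log_le_log (by have := mul_pos (hb0 m) (hb0 n); positivity) (h1 m n)
    rw [Real.log_mul hc.ne' (mul_pos (hb0 m) (hb0 n)).ne', Real.log_mul (hb0 m).ne' (hb0 n).ne'] at e1
    have e2 : - Real.log c ≤ M := le_max_right _ _
    show - Real.log (b (m + n)) + M ≤ (- Real.log (b m) + M) + (- Real.log (b n) + M)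
    linarith
  have hlog : ∀ n, 0 ≤ Real.log (b n) := fun n => Real.log_nonneg (hb n)
  have hub : BddBelow (Set.range fun n : ℕ => (Real.log (b n) + L) / n) := by
    refine ⟨0, ?_⟩
    rintro _ ⟨n, rfl⟩
    have := hlog n
    positivity
  have hut := hu.tendsto_lim hub
  set h := hu.lim with hh
  have hh0 : 0 ≤ h := ge_of_tendsto' hut fun n => by
    have := hlog n
    positivity
  have hconst : ∀ x : ℝ, Tendsto (fun n : ℕ => x / (n : ℝ)) atTop (𝓝 0) := fun x =>
    tendsto_const_nhds.div_atTop tendsto_natCast_atTop_atTop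
  have hvt' : Tendsto (fun n : ℕ => (- Real.log (b n) + M) / n) atTop (𝓝 (-h)) := by
    have e1 := (hut.neg).add (hconst (L + M))
    rw [add_zero] at e1
    refine e1.congr fun n => ?_
    ring
  have hvb : BddBelow (Set.range fun n : ℕ => (- Real.log (b n) + M) / n) := hvt'.bddBelow_range
  have hvt := hv.tendsto_lim hvb
  have hlim : hv.lim = -h := tendsto_nhds_unique hvt hvt'
  refine ⟨h, Real.exp (L + M), hh0, Real.one_le_exp (by linarith), fun n => ?_⟩
  rcases Nat.eq_zero_or_pos n with rfl | hn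
  · -- n = 0
    have e1 := h1 0 0
    have e2 := h2 0 0
    simp only [Nat.cast_zero, mul_zero, Real.exp_zero, mul_one]
    constructor
    · rw [add_zero] at e1
      have e3 : b 0 ≤ c⁻¹ := by
        rw [← one_div, le_div_iff₀ hc]
        have := hb0 0
        nlinarith
      have e4 : c⁻¹ ≤ Real.exp M := by
        rw [← Real.exp_log (inv_pos.2 hc), Real.log_inv]
        exact Real.exp_le_exp.2 (le_max_right _ _)
      exact e3.trans (e4.trans (Real.exp_le_exp.2 (by linarith)))
    · have := Real.one_le_exp (show 0 ≤ L + M by linarith)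
      have := hb 0
      nlinarith
  · have hn0 : (n : ℝ) ≠ 0 := by exact_mod_cast hn.ne'
    have hn1 : (0 : ℝ) < n := by exact_mod_cast hn
    have e1 := hu.lim_le_div hub hn.ne'
    have e2 := hv.lim_le_div hvb hn.ne'
    rw [hlim] at e2
    rw [le_div_iff₀ hn1] at e1 e2
    constructor
    · rw [← Real.exp_add]
      rw [← Real.log_le_iff_le_exp (hb0 n)]
      linarith
    · rw [← Real.exp_log (hb0 n), ← Real.exp_add]
      apply Real.exp_le_exp.2
      linarith

section
variable {G X : Type} [Group G] [MetricSpace X] [MulAction G X] {o : X} {δ R : ℝ}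

theorem mult_gen (H : Hyp G X o δ R) (D : ℝ) : ∃ N : ℕ, 0 < N ∧
    ∀ {α β : Type} (A : Finset α) (B : Finset β) (p : α → G) (φ : α → β),
    (∀ x ∈ A, φ x ∈ B) → (∀ x ∈ A, ∀ y ∈ A, φ x = φ y → p x = p y → x = y) →
    (∀ x ∈ A, ∀ y ∈ A, φ x = φ y → dist (p x • o) (p y • o) ≤ D) → A.card ≤ N * B.card := by
  classical
  refine ⟨(H.fin D).toFinset.card + 1, Nat.succ_pos _, fun {α β} A B p φ h1 h2 h3 => ?_⟩
  have key : ∀ a ∈ A.image φ, (A.filter (fun x => φ x = a)).card ≤ (H.fin D).toFinset.card + 1 := by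
    intro a ha
    obtain ⟨x, hx, rfl⟩ := Finset.mem_image.1 ha
    refine le_trans ?_ (Nat.le_succ _)
    refine Finset.card_le_card_of_injOn (fun y => (p x)⁻¹ * p y) ?_ ?_
    · intro y hy
      have hy' := Finset.mem_filter.1 (Finset.mem_coe.1 hy)
      rw [Finset.mem_coe, Set.Finite.mem_toFinset, Set.mem_setOf_eq]
      have := h3 x hx y hy'.1 hy'.2.symm
      rw [← H.iso (p x), ← mul_smul, mul_inv_cancel_left]
      exact this
    · intro y hy w hw hyw
      have hy' := Finset.mem_filter.1 (Finset.mem_coe.1 hy)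
      have hw' := Finset.mem_filter.1 (Finset.mem_coe.1 hw)
      exact h2 y hy'.1 w hw'.1 (hy'.2.trans hw'.2.symm) (mul_left_cancel hyw)
  refine (Finset.card_le_mul_card_image A _ key).trans ?_
  refine Nat.mul_le_mul_left _ (Finset.card_le_card ?_)
  intro b hb
  obtain ⟨x, hx, rfl⟩ := Finset.mem_image.1 hb
  exact h1 x hx

theorem fin_ann (H : Hyp G X o δ R) (D T : ℝ) : {g : G | |dist o (g • o) - T| ≤ D}.Finite := by
  refine (H.fin (T + D)).subset fun g hg => ?_
  rw [Set.mem_setOf_eq] at hg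
  have := (abs_le.1 hg).2
  show dist o (g • o) ≤ T + D
  linarith

/-- the elements at level `T` -/
noncomputable def ann (H : Hyp G X o δ R) (D T : ℝ) : Finset G := (fin_ann H D T).toFinset

theorem mem_ann (H : Hyp G X o δ R) (D T : ℝ) (g : G) : g ∈ ann H D T ↔ |dist o (g • o) - T| ≤ D := by
  unfold ann
  rw [Set.Finite.mem_toFinset]
  rfl

theorem dist_inv (H : Hyp G X o δ R) (g : G) : dist o (g⁻¹ • o) = dist o (g • o) := by
  rw [← H.iso g, smul_inv_smul, dist_comm]

theorem card_mono (H : Hyp G X o δ R) {D D' T : ℝ} (h : D ≤ D') :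
    (ann H D T).card ≤ (ann H D' T).card := by
  refine Finset.card_le_card fun g hg => ?_
  rw [mem_ann] at hg ⊢
  exact hg.trans h

/-- comparison of the width of annuli -/
theorem card_width (H : Hyp G X o δ R) (hB : ∃ ξ η : Boundary X, ξ ≠ η) (D : ℝ) :
    ∃ K : ℕ, 0 < K ∧ ∀ T : ℝ, 0 ≤ T → (ann H D T).card ≤ K * (ann H R T).card := by
  obtain ⟨C, hC, hvis⟩ := H.visibility hB
  have hδ := H.nonneg
  have hR := H.nonneg'
  choose ζ hζ using hvis
  obtain ⟨N, hN, hmult⟩ := mult_gen H (2 * (3 * D + 3 * R + 2 * C + 10 * δ))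
  refine ⟨N, hN, fun T hT => ?_⟩
  have hray := fun g : G => ray_pt H (ζ g) hT
  choose s hs1 hs2 using hray
  have key : ∀ g ∈ ann H D T, dist (s g • o) (g • o) ≤ 3 * D + 3 * R + 2 * C + 10 * δ := by
    intro g hg
    rw [mem_ann, abs_le] at hg
    have h1 := abs_le.1 (hs1 g)
    have hD : 0 ≤ D := by linarith
    set T' := T - D - C - δ - R with hT'
    have h2 := gprod_of_near hδ H.hyp ((hs2 g).mono (show T' ≤ _ by linarith))
      ((hζ g).mono (show T' ≤ _ by linarith)) (j7_near_self o (ζ g) T')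
    rw [dist_eq_gprod o]
    linarith
  refine hmult (ann H D T) (ann H R T) id s ?_ (fun x _ y _ _ h => h) ?_
  · intro g _
    rw [mem_ann]
    exact hs1 g
  · intro g hg g' hg' he
    have h1 := key g hg
    have h2 := key g' hg'
    rw [← he] at h2
    have := dist_triangle_left (g • o) (g' • o) (s g • o)
    simp only [id]
    linarith

/-- the annuli are not empty -/
theorem ann_pos (H : Hyp G X o δ R) (ξ : Boundary X) {T : ℝ} (hT : 0 ≤ T) :
    0 < (ann H R T).card := by
  rw [Finset.card_pos]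
  obtain ⟨g, hg, _⟩ := ray_pt H ξ hT
  exact ⟨g, (mem_ann H R T g).2 hg⟩

/-- submultiplicativity -/
theorem card_sub (H : Hyp G X o δ R) (hB : ∃ ξ η : Boundary X, ξ ≠ η) :
    ∃ K : ℕ, 0 < K ∧ ∀ s t : ℝ, 0 ≤ s → 0 ≤ t →
      (ann H R (s + t)).card ≤ K * ((ann H R s).card * (ann H R t).card) := by
  classical
  obtain ⟨K, hK, hw⟩ := card_width H hB (4 * R)
  obtain ⟨C, hC, hvis⟩ := H.visibility hB
  have hδ := H.nonneg
  have hR := H.nonneg'
  refine ⟨K, hK, fun s t hs ht => ?_⟩
  obtain ⟨Kw, hKw, hw'⟩ := card_width H hB (4 * R)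
  have h1 : (ann H R (s + t)).card ≤ (ann H R s ×ˢ ann H (4 * R) t).card := by
    -- points at distance s
    have hpt : ∀ g ∈ ann H R (s + t), ∃ x : G, |dist o (x • o) - s| ≤ R ∧
        |dist (x • o) (g • o) - t| ≤ 4 * R := by
      intro g hg
      rw [mem_ann, abs_le] at hg
      by_cases hsg : s ≤ dist o (g • o)
      · obtain ⟨p, hp1, hp2⟩ := exists_pt H.geo o (g • o) hs hsg
        obtain ⟨x, hx⟩ := H.cob p
        have a1 := dist_triangle o p (x • o)
        have a2 := dist_triangle o (x • o) p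
        have a3 := dist_triangle (x • o) p (g • o)
        have a4 := dist_triangle p (x • o) (g • o)
        rw [dist_comm (x • o) p] at a2 a3
        refine ⟨x, abs_le.2 ⟨by linarith, by linarith⟩, abs_le.2 ⟨by linarith, by linarith⟩⟩
      · push Not at hsg
        refine ⟨g, abs_le.2 ⟨by linarith, by linarith⟩, ?_⟩
        rw [dist_self, abs_le]
        constructor <;> linarith
    choose! x hx1 hx2 using hpt
    refine Finset.card_le_card_of_injOn (fun g => (x g, (x g)⁻¹ * g)) ?_ ?_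
    · intro g hg
      rw [Finset.mem_coe] at hg
      rw [Finset.mem_coe, Finset.mem_product, mem_ann, mem_ann]
      refine ⟨hx1 g hg, ?_⟩
      have : dist o (((x g)⁻¹ * g) • o) = dist (x g • o) (g • o) := by
        rw [← H.iso (x g), ← mul_smul, mul_inv_cancel_left]
      simp only [this]
      exact hx2 g hg
    · intro g _ g' _ he
      have e1 := congrArg Prod.fst he
      have e2 := congrArg Prod.snd he
      simp only at e1 e2
      rw [e1] at e2
      exact mul_left_cancel e2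
  rw [Finset.card_product] at h1
  calc (ann H R (s + t)).card ≤ (ann H R s).card * (ann H (4 * R) t).card := h1
    _ ≤ (ann H R s).card * (K * (ann H R t).card) := Nat.mul_le_mul_left _ (hw t ht)
    _ = _ := by ring

/-- Extension of a group element in the direction away from the origin. -/
theorem ext (H : Hyp G X o δ R) [ProperSpace X] (hinf : Infinite (Boundary X)) :
    ∃ (F : Finset G) (C : ℝ), 0 ≤ C ∧ ∀ s g : G, ∃ f ∈ F,
      |dist o ((s * f * g) • o) - (dist o (s • o) + dist o (g • o))| ≤ C ∧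
      dist o (s • o) - C ≤ gprod o (s • o) ((s * f * g) • o) := by
  classical
  obtain ⟨F, C, hF, hFC⟩ := stC1 G X o δ R H hinf
  set L : ℝ := ∑ f ∈ hF.toFinset, dist o (f • o) with hL
  have hL0 : 0 ≤ L := Finset.sum_nonneg fun _ _ => dist_nonneg
  have hfL : ∀ f ∈ F, dist o (f • o) ≤ L := fun f hf =>
    Finset.single_le_sum (f := fun f => dist o (f • o)) (fun _ _ => dist_nonneg)
      ((Set.Finite.mem_toFinset hF).2 hf)
  refine ⟨hF.toFinset, L + 2 * |C|, by positivity, fun s g => ?_⟩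
  obtain ⟨f, hf, h1⟩ := hFC s⁻¹ g
  refine ⟨f, (Set.Finite.mem_toFinset hF).2 hf, ?_⟩
  have e0 := hfL f hf
  have e1 : dist o ((f * g) • o) ≤ dist o (f • o) + dist o (g • o) := by
    have := dist_triangle o (f • o) ((f * g) • o)
    rwa [H.dist_mul] at this
  have e1' : dist o (g • o) ≤ dist o (f • o) + dist o ((f * g) • o) := by
    have := dist_triangle (f • o) o ((f * g) • o)
    rw [H.dist_mul, dist_comm (f • o) o] at this
    exact this
  have e2 : dist o ((s * f * g) • o) = dist (s⁻¹ • o) ((f * g) • o) := by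
    rw [← H.iso s (s⁻¹ • o), smul_inv_smul, ← mul_smul, mul_assoc]
  have e3 := dist_eq_gprod o (s⁻¹ • o) ((f * g) • o)
  rw [dist_inv H] at e3
  have e4 : 0 ≤ gprod o (s⁻¹ • o) ((f * g) • o) := gprod_nonneg _ _ _
  have e5 : dist (s • o) ((s * f * g) • o) = dist o ((f * g) • o) := by
    rw [mul_assoc, H.dist_mul]
  have e6 := le_abs_self C
  have e7 := abs_nonneg C
  constructor
  · rw [e2, e3, abs_le]
    constructor <;> linarith
  · have e8 := dist_eq_gprod o (s • o) ((s * f * g) • o)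
    rw [e5, e2, e3] at e8
    linarith

/-- supermultiplicativity -/
theorem card_super (H : Hyp G X o δ R) [ProperSpace X] (hinf : Infinite (Boundary X)) :
    ∃ K : ℕ, 0 < K ∧ ∀ s t : ℝ, 0 ≤ s → 0 ≤ t →
      (ann H R s).card * (ann H R t).card ≤ K * (ann H R (s + t)).card := by
  classical
  obtain ⟨ξ, η, hne⟩ := exists_pair_ne (Boundary X)
  obtain ⟨F, C, hC, hext⟩ := ext H hinf
  choose f hfF hf1 hf2 using hext
  have hδ := H.nonneg
  have hR := H.nonneg'
  obtain ⟨K, hK, hw⟩ := card_width H ⟨ξ, η, hne⟩ (2 * R + C)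
  obtain ⟨N, hN, hmult⟩ := mult_gen H (4 * R + 2 * C + 2 * δ)
  have hF : 0 < F.card := Finset.card_pos.2 ⟨_, hfF 1 1⟩
  refine ⟨N * (F.card * K), by positivity, fun s t hs ht => ?_⟩
  have h1 := hmult (ann H R s ×ˢ ann H R t) (F ×ˢ ann H (2 * R + C) (s + t)) Prod.fst
    (fun x => (f x.1 x.2, x.1 * f x.1 x.2 * x.2)) ?_ ?_ ?_
  · rw [Finset.card_product, Finset.card_product] at h1
    calc (ann H R s).card * (ann H R t).card ≤
        N * (F.card * (ann H (2 * R + C) (s + t)).card) := h1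
      _ ≤ N * (F.card * (K * (ann H R (s + t)).card)) :=
          Nat.mul_le_mul_left _ (Nat.mul_le_mul_left _ (hw _ (by linarith)))
      _ = _ := by ring
  · rintro ⟨g, h⟩ hgh
    rw [Finset.mem_product, mem_ann, mem_ann] at hgh
    rw [Finset.mem_product, mem_ann]
    refine ⟨hfF _ _, ?_⟩
    have h1 := abs_le.1 (hf1 g h)
    have h2 := abs_le.1 hgh.1
    have h3 := abs_le.1 hgh.2
    simp only at h2 h3 ⊢
    rw [abs_le]
    constructor <;> linarith
  · rintro ⟨g, h⟩ _ ⟨g', h'⟩ _ he hg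
    simp only [Prod.mk.injEq] at he hg ⊢
    subst hg
    obtain ⟨he1, he2⟩ := he
    rw [← he1] at he2
    exact ⟨rfl, mul_left_cancel he2⟩
  · rintro ⟨g, h⟩ hgh ⟨g', h'⟩ hgh' he
    rw [Finset.mem_product, mem_ann, mem_ann] at hgh hgh'
    simp only [Prod.mk.injEq] at he hgh hgh' ⊢
    have h1 := hf2 g h
    have h2 := hf2 g' h'
    rw [← he.2] at h2
    have h3 := abs_le.1 hgh.1
    have h4 := abs_le.1 hgh'.1
    have h5 := H.hyp o (g • o) (g' • o) ((g * f g h * h) • o)
    rw [gprod_comm o ((g * f g h * h) • o) (g' • o)] at h5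
    have h6 : s - R - C ≤ min (gprod o (g • o) ((g * f g h * h) • o))
        (gprod o (g' • o) ((g * f g h * h) • o)) := le_min (by linarith) (by linarith)
    rw [dist_eq_gprod o]
    linarith

/-- Purely exponential growth. -/
theorem growth (H : Hyp G X o δ R) [ProperSpace X] (hinf : Infinite (Boundary X)) :
    ∃ h : ℝ, 0 ≤ h ∧ ∀ D : ℝ, R ≤ D → ∃ C : ℝ, 1 ≤ C ∧ ∀ n : ℕ,
      ((ann H D n).card : ℝ) ≤ C * Real.exp (h * n) ∧
      Real.exp (h * n) ≤ C * ((ann H R n).card : ℝ) := by
  obtain ⟨ξ, η, hne⟩ := exists_pair_ne (Boundary X)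
  obtain ⟨K₁, hK₁, h1⟩ := card_sub H ⟨ξ, η, hne⟩
  obtain ⟨K₂, hK₂, h2⟩ := card_super H hinf
  have hK₁' : (0 : ℝ) < K₁ := by exact_mod_cast hK₁
  have hK₂' : (0 : ℝ) < K₂ := by exact_mod_cast hK₂
  obtain ⟨h, C, hh, hC, hn⟩ := fekete (fun n : ℕ => ((ann H R n).card : ℝ)) (K₂ : ℝ)⁻¹ K₁
    (by positivity) hK₁' (fun n => by exact_mod_cast ann_pos H ξ (Nat.cast_nonneg n)) (by
      intro m n
      rw [inv_mul_le_iff₀ hK₂']
      have := h2 m n (Nat.cast_nonneg m) (Nat.cast_nonneg n)
      push_cast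
      exact_mod_cast this) (by
      intro m n
      have := h1 m n (Nat.cast_nonneg m) (Nat.cast_nonneg n)
      push_cast
      exact_mod_cast this)
  refine ⟨h, hh, fun D hD => ?_⟩
  obtain ⟨K, hK, hw⟩ := card_width H ⟨ξ, η, hne⟩ D
  have hK' : (1 : ℝ) ≤ K := by exact_mod_cast hK
  refine ⟨K * C, by nlinarith, fun n => ⟨?_, ?_⟩⟩
  · have e1 : ((ann H D n).card : ℝ) ≤ K * (ann H R n).card := by
      exact_mod_cast hw n (Nat.cast_nonneg n)
    have e2 := (hn n).1
    calc ((ann H D n).card : ℝ) ≤ K * (ann H R n).card := e1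
      _ ≤ K * (C * Real.exp (h * n)) := mul_le_mul_of_nonneg_left e2 (by linarith)
      _ = _ := by ring
  · refine (hn n).2.trans ?_
    have : (0 : ℝ) ≤ (ann H R n).card := Nat.cast_nonneg _
    have e3 : C ≤ K * C := by nlinarith
    exact mul_le_mul_of_nonneg_right e3 this

end

end Pool.Agent.Y166.CD
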