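import Mathlib
import Pool.Agent.Y166.CD.Growth
import Pool.Agent.Y166.CD.Ahl

/-!
# Visual metrics are Ahlfors regular
-/

set_option autoImplicit false
set_option linter.unusedSectionVars false
set_option linter.deprecated false

namespace Pool.Agent.Y166.CD

open Pool.Agent.Helper376.LC Pool.Agent.Y454.CD Filter MeasureTheory
open scoped Topology ENNReal

/-- the level of a radius -/
theorem level (ε D : ℝ) (hε : 0 < ε) : ∃ c : ℝ, 0 ≤ c ∧ ∀ r ρ : ℝ, 0 < ρ → ρ ≤ r →
    r ≤ D → ∃ n k : ℕ, Real.exp (-ε * (n + c)) ≤ r ∧ r ≤ Real.exp (-ε * (n - c)) ∧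
      Real.exp (-ε * (n + k + c)) ≤ ρ ∧ ρ ≤ Real.exp (-ε * (n + k - c)) := by
  set t : ℝ → ℝ := fun x => - Real.log x / ε with ht
  have hexp : ∀ x, 0 < x → Real.exp (-ε * t x) = x := by
    intro x hx
    have : -ε * t x = Real.log x := by
      simp only [ht]
      field_simp
    rw [this, Real.exp_log hx]
  have hmono : ∀ x y, 0 < x → x ≤ y → t y ≤ t x := by
    intro x y hx hxy
    simp only [ht]
    apply div_le_div_of_nonneg_right _ hε.le
    have := Real.log_le_log hx hxy
    linarith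
  have hfl : ∀ x, 0 < x → x ≤ D → |t x - ⌊t x⌋₊| ≤ 1 + |t D| := by
    intro x hx hxD
    have h1 := hmono x D hx hxD
    have h2 := neg_abs_le (t D)
    have h3 := abs_nonneg (t D)
    rcases le_total 0 (t x) with h | h
    · have h4 := Nat.floor_le h
      have h5 := Nat.lt_floor_add_one (t x)
      rw [abs_le]
      constructor <;> linarith
    · rw [Nat.floor_of_nonpos h, Nat.cast_zero, abs_le]
      constructor <;> linarith
  refine ⟨1 + |t D|, by positivity, fun r ρ hρ hρr hrD => ?_⟩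
  have hr : 0 < r := hρ.trans_le hρr
  have hle : ⌊t r⌋₊ ≤ ⌊t ρ⌋₊ := Nat.floor_le_floor (hmono ρ r hρ hρr)
  obtain ⟨k, hk⟩ := Nat.exists_eq_add_of_le hle
  have h1 := abs_le.1 (hfl r hr hrD)
  have h2 := abs_le.1 (hfl ρ hρ (hρr.trans hrD))
  rw [hk] at h2
  push_cast at h2
  refine ⟨⌊t r⌋₊, k, ?_, ?_, ?_, ?_⟩
  · conv_rhs => rw [← hexp r hr]
    apply Real.exp_le_exp.2
    nlinarith
  · conv_lhs => rw [← hexp r hr]
    apply Real.exp_le_exp.2
    nlinarith
  · conv_rhs => rw [← hexp ρ hρ]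
    apply Real.exp_le_exp.2
    nlinarith
  · conv_lhs => rw [← hexp ρ hρ]
    apply Real.exp_le_exp.2
    nlinarith

theorem exists_small (ε C η : ℝ) (hε : 0 < ε) (hη : 0 < η) :
    ∃ T : ℝ, ∀ S ≥ T, C * Real.exp (-ε * S) < η := by
  have h1 : Tendsto (fun S : ℝ => C * Real.exp (-ε * S)) atTop (𝓝 0) := by
    have h2 : Tendsto (fun S : ℝ => -ε * S) atTop atBot :=
      Tendsto.const_mul_atTop_of_neg (by linarith) tendsto_id
    have h3 := (Real.tendsto_exp_atBot.comp h2).const_mul C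
    rw [mul_zero] at h3
    exact h3
  obtain ⟨T, hT⟩ := eventually_atTop.1 (h1.eventually (gt_mem_nhds hη))
  exact ⟨T, hT⟩

section
variable {G X Z : Type} [Group G] [MetricSpace X] [MulAction G X] [MetricSpace Z]
  {o : X} {δ R : ℝ}

theorem compact_Z (H : Hyp G X o δ R) [ProperSpace X] (e : Z ≃ Boundary X) (ε C : ℝ) (hε : 0 < ε)
    (h1 : ∀ z w : Z, ∀ T : ℝ, Near o T (e z) (e w) → dist z w ≤ C * Real.exp (-ε * T)) :
    CompactSpace Z := by
  rw [compactSpace_iff_seqCompactSpace]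
  refine ⟨fun z _ => ?_⟩
  have hX : GromovHyperbolic X := ⟨δ, H.hyp⟩
  have hray := fun n : ℕ => ray_pt H (e (z n)) (Nat.cast_nonneg n)
  choose s hs1 hs2 using hray
  have hx : ∀ T : ℝ, ∃ I : ℕ, ∀ i ≥ I, T ≤ dist o (s i • o) := by
    intro T
    obtain ⟨I, hI⟩ := exists_nat_ge (T + R)
    refine ⟨I, fun i hi => ?_⟩
    have h2 := (abs_le.1 (hs1 i)).1
    have h3 : (I : ℝ) ≤ i := by exact_mod_cast hi
    linarith
  obtain ⟨φ, hφ, hφ2⟩ := exists_subseq H.geo hX o (fun n => s n • o) hx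
  obtain ⟨u, hu⟩ := exists_gromovSeq o (fun n => s (φ n) • o) hφ2
  refine ⟨e.symm u.lim, Set.mem_univ _, φ, hφ, ?_⟩
  rw [Metric.tendsto_atTop]
  intro η hη
  obtain ⟨T, hT⟩ := exists_small ε C η hε hη
  obtain ⟨N, hN⟩ := hφ2 (T + δ)
  obtain ⟨M, hM⟩ := exists_nat_ge (T + 2 * δ + R)
  refine ⟨max N M, fun n hn => ?_⟩
  have hnN : N ≤ n := (le_max_left _ _).trans hn
  have hnM : M ≤ n := (le_max_right _ _).trans hn
  have h2 : PB o (T + δ) (s (φ n) • o) u.lim := ⟨u, rfl, N, fun m hm => by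
    rw [hu]
    exact hN n hnN m hm⟩
  have h3 : (M : ℝ) ≤ φ n := by exact_mod_cast hnM.trans (hφ.id_le n)
  have h4 : PB o (T + δ) (s (φ n) • o) (e (z (φ n))) := (hs2 (φ n)).mono (by linarith)
  have h5 := Near.of_PB H.hyp h4 h2
  rw [add_sub_cancel_right] at h5
  have h6 := h1 (z (φ n)) (e.symm u.lim) T (by rw [Equiv.apply_symm_apply]; exact h5)
  exact h6.trans_lt (hT T le_rfl)

theorem infinite_case (H : Hyp G X o δ R) [ProperSpace X] (hinf : Infinite (Boundary X))
    (e : Z ≃ Boundary X) (ε C : ℝ) (hε : 0 < ε) (hC : 1 ≤ C)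
    (h1 : ∀ z w : Z, ∀ T : ℝ, Near o T (e z) (e w) → dist z w ≤ C * Real.exp (-ε * T))
    (h2 : ∀ z w : Z, ∀ T : ℝ, dist z w < C⁻¹ * Real.exp (-ε * T) → Near o T (e z) (e w)) :
    AhlforsRegular Z := by
  classical
  have hδ := H.nonneg
  have hR := H.nonneg'
  obtain ⟨ξ, η, hne⟩ := exists_pair_ne (Boundary X)
  obtain ⟨Cv, hCv, hvis⟩ := H.visibility ⟨ξ, η, hne⟩
  choose ζ hζ using hvis
  obtain ⟨F, C₃, hC₃, hext⟩ := ext H hinf
  choose f hfF hf1 hf2 using hext
  obtain ⟨h, hh, hgr⟩ := growth H hinf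
  have hQ : 0 ≤ h / ε := by positivity
  set a : ℝ := Real.log C / ε with ha
  have ha0 : 0 ≤ a := div_nonneg (Real.log_nonneg hC) hε.le
  have hCa : C = Real.exp (ε * a) := by
    rw [ha, mul_div_cancel₀ _ hε.ne', Real.exp_log (by linarith)]
  have W1 : ∀ z w : Z, ∀ T : ℝ, Near o T (e z) (e w) → dist z w ≤ Real.exp (-ε * (T - a)) := by
    intro z w T hT
    refine (h1 z w T hT).trans (le_of_eq ?_)
    rw [hCa, ← Real.exp_add]
    congr 1
    ring
  have W2 : ∀ z w : Z, ∀ T : ℝ, dist z w < Real.exp (-ε * T) → Near o (T - a) (e z) (e w) := by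
    intro z w T hT
    apply h2
    rw [hCa, ← Real.exp_neg, ← Real.exp_add]
    refine hT.trans_le (le_of_eq ?_)
    congr 1
    ring
  obtain ⟨c, hc, hlev⟩ := level ε (max (Metric.diam (Set.univ : Set Z)) 1) hε
  -- powers
  have P1 : ∀ (x : ℝ) (k : ℕ), 0 < x → x ≤ Real.exp (ε * (k + 2 * c)) →
      x ^ (h / ε) ≤ Real.exp (2 * h * c) * Real.exp (h * k) := by
    intro x k hx hxk
    refine (Real.rpow_le_rpow hx.le hxk hQ).trans (le_of_eq ?_)
    rw [← Real.exp_mul, ← Real.exp_add]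
    congr 1
    field_simp
    ring
  have P2 : ∀ (x : ℝ) (k : ℕ), Real.exp (ε * (k - 2 * c)) ≤ x →
      Real.exp (h * k) ≤ Real.exp (2 * h * c) * x ^ (h / ε) := by
    intro x k hxk
    have h3 := Real.rpow_le_rpow (Real.exp_pos _).le hxk hQ
    rw [← Real.exp_mul] at h3
    refine le_trans (le_of_eq ?_) (mul_le_mul_of_nonneg_left h3 (Real.exp_pos _).le)
    rw [← Real.exp_add]
    congr 1
    field_simp
    ring
  obtain ⟨c₂, hc₂⟩ := exists_nat_gt (2 * δ + R + a + c)
  obtain ⟨c₃, hc₃⟩ := exists_nat_gt (3 * δ + 2 * R + C₃ + Cv + a + c)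
  set D₁ : ℝ := c₂ + 4 * R + 2 * c + 2 * a + 10 * δ with hD₁
  have hc₂0 : (0 : ℝ) ≤ c₂ := Nat.cast_nonneg _
  have hc₃0 : (0 : ℝ) ≤ c₃ := Nat.cast_nonneg _
  obtain ⟨C₁, hC₁, hgr₁⟩ := hgr D₁ (by linarith)
  set D₂ : ℝ := 2 * (c₃ + 4 * R + 2 * C₃ + c + a + 7 * δ + Cv) with hD₂
  obtain ⟨N, hN, hmult⟩ := mult_gen H D₂
  set K₁ : ℝ := C₁ * Real.exp (2 * h * c) with hK₁
  set K₂ : ℝ := Real.exp (2 * h * c) * (C₁ * (N * F.card)) with hK₂
  refine ahlfors_of_count (compact_Z H e ε C hε h1) (h / ε) (max 1 (max K₁ K₂)) hQ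
    (le_max_left _ _) ?_ ?_
  · -- upper bound
    intro z r ρ hρ hρr hrd E hE hsep
    have hr : 0 < r := hρ.trans_le hρr
    obtain ⟨n, k, l1, l2, l3, l4⟩ := hlev r ρ hρ hρr (hrd.trans (le_max_left _ _))
    obtain ⟨s, hs1, hs2⟩ := ray_pt H (e z) (Nat.cast_nonneg n)
    have hray := fun x : Z => ray_pt H (e x) (show (0 : ℝ) ≤ (n : ℝ) + k + c₂ by positivity)
    choose g hg1 hg2 using hray
    have hs1' := abs_le.1 hs1
    have hcard : E.card ≤ (ann H D₁ k).card := by
      refine Finset.card_le_card_of_injOn (fun x => s⁻¹ * g x) ?_ ?_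
      · intro x hx
        rw [Finset.mem_coe] at hx
        rw [Finset.mem_coe, mem_ann]
        have e1 : Near o ((n : ℝ) - c - a) (e x) (e z) := W2 x z _ ((hE x hx).trans_le l2)
        have e2 := gprod_of_near hδ H.hyp (T := (n : ℝ) - c - a - δ - R)
          (hs2.mono (by linarith)) ((hg2 x).mono (by
            have : (0 : ℝ) ≤ k := Nat.cast_nonneg _
            linarith)) (e1.symm'.mono' (by linarith))
        have e3 := dist_eq_gprod o (s • o) (g x • o)
        have e4 : dist o ((s⁻¹ * g x) • o) = dist (s • o) (g x • o) := by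
          rw [← H.iso s, ← mul_smul, mul_inv_cancel_left]
        have e5 := abs_le.1 (hg1 x)
        have e6 := dist_triangle o (s • o) (g x • o)
        rw [e4, abs_le]
        constructor <;> linarith
      · intro x hx y hy hxy
        by_contra hne
        have e0 : g x = g y := mul_left_cancel hxy
        have e1 := hg2 x
        rw [e0] at e1
        have e2 := Near.of_PB H.hyp e1 (hg2 y)
        have e3 := W1 x y _ e2
        have e4 := hsep x hx y hy hne
        have e5 : Real.exp (-ε * ((n : ℝ) + k + c₂ - δ - R - δ - a)) <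
            Real.exp (-ε * ((n : ℝ) + k + c)) := by
          apply Real.exp_lt_exp.2
          nlinarith
        linarith
    have e1 : (E.card : ℝ) ≤ (ann H D₁ k).card := by exact_mod_cast hcard
    have e2 := (hgr₁ k).1
    have e3 := P2 (r / ρ) k (by
      rw [le_div_iff₀ hρ]
      refine le_trans ?_ l1
      refine (mul_le_mul_of_nonneg_left l4 (Real.exp_pos _).le).trans (le_of_eq ?_)
      rw [← Real.exp_add]
      congr 1
      ring)
    have e4 : 0 ≤ (r / ρ) ^ (h / ε) := by positivity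
    calc (E.card : ℝ) ≤ C₁ * Real.exp (h * k) := e1.trans e2
      _ ≤ C₁ * (Real.exp (2 * h * c) * (r / ρ) ^ (h / ε)) :=
          mul_le_mul_of_nonneg_left e3 (by linarith)
      _ = K₁ * (r / ρ) ^ (h / ε) := by rw [hK₁]; ring
      _ ≤ _ := mul_le_mul_of_nonneg_right ((le_max_left _ _).trans (le_max_right _ _)) e4
  · -- lower bound
    intro z r ρ hρ hρr hrd E hE
    have hr : 0 < r := hρ.trans_le hρr
    obtain ⟨n, k, l1, l2, l3, l4⟩ := hlev r ρ hρ hρr (hrd.trans (le_max_left _ _))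
    obtain ⟨s, hs1, hs2⟩ := ray_pt H (e z) (show (0 : ℝ) ≤ (n : ℝ) + c₃ by positivity)
    have hs1' := abs_le.1 hs1
    have hk0 : (0 : ℝ) ≤ k := Nat.cast_nonneg _
    -- boundary points
    have hy : ∀ g ∈ ann H R k, dist (e.symm (ζ (s * f s g * g))) z < r := by
      intro g hg
      rw [mem_ann] at hg
      have e1 := abs_le.1 hg
      have e2 := abs_le.1 (hf1 s g)
      have e3 := hf2 s g
      have e4 : PB o ((n : ℝ) + c₃ - δ - R - C₃ - δ) ((s * f s g * g) • o) (e z) :=
        (hs2.mono (show (n : ℝ) + c₃ - δ - R - C₃ ≤ _ by linarith)).move H.hyp (by linarith)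
      have e5 := Near.of_PB H.hyp (e4.mono (show (n : ℝ) + c₃ - 2 * δ - 2 * R - C₃ - Cv ≤ _ by
        linarith)) ((hζ (s * f s g * g)).mono (by linarith))
      have e6 := W1 z (e.symm (ζ (s * f s g * g))) _ (by
        rw [Equiv.apply_symm_apply]
        exact e5)
      rw [dist_comm]
      refine (e6.trans_lt ?_).trans_le l1
      apply Real.exp_lt_exp.2
      nlinarith
    have hx : ∀ g ∈ ann H R k, ∃ x ∈ E, dist (e.symm (ζ (s * f s g * g))) x < ρ :=
      fun g hg => hE _ (hy g hg)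
    haveI : Nonempty Z := ⟨z⟩
    choose! x hxE hxd using hx
    have hcard := hmult (ann H R k) (E ×ˢ F) id (fun g => (x g, f s g)) (fun g hg =>
      Finset.mem_product.2 ⟨hxE g hg, hfF s g⟩) (fun _ _ _ _ _ h => h) (by
      intro g hg g' hg' he
      have he1 : x g = x g' := congrArg Prod.fst he
      have he2 : f s g = f s g' := congrArg Prod.snd he
      have n1 := W2 _ _ _ ((hxd g hg).trans_le l4)
      have n2 := W2 _ _ _ ((hxd g' hg').trans_le l4)
      rw [← he1] at n2
      have n3 := Near.trans' hδ H.hyp n1 n2.symm'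
      rw [Equiv.apply_symm_apply, Equiv.apply_symm_apply] at n3
      rw [mem_ann] at hg hg'
      have e1 := abs_le.1 hg
      have e1' := abs_le.1 hg'
      have e2 := abs_le.1 (hf1 s g)
      have e2' := abs_le.1 (hf1 s g')
      have n4 := gprod_of_near hδ H.hyp
        (T := (n : ℝ) + k - c - a - 3 * δ - 2 * R - C₃ - Cv)
        ((hζ (s * f s g * g)).mono (by linarith)) ((hζ (s * f s g' * g')).mono (by linarith))
        (n3.mono' (by linarith))
      have n5 := dist_eq_gprod o ((s * f s g * g) • o) ((s * f s g' * g') • o)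
      have n6 : dist ((s * f s g * g) • o) ((s * f s g' * g') • o) = dist (g • o) (g' • o) := by
        rw [← he2, mul_smul, mul_smul _ g', H.iso]
      simp only [id]
      rw [← n6]
      linarith)
    have e1 : ((ann H R k).card : ℝ) ≤ N * (E.card * F.card) := by
      rw [Finset.card_product] at hcard
      exact_mod_cast hcard
    have e2 := (hgr₁ k).2
    have e3 := P1 (r / ρ) k (by positivity) (by
      rw [div_le_iff₀ hρ]
      refine l2.trans ?_
      refine le_trans (le_of_eq ?_) (mul_le_mul_of_nonneg_left l3 (Real.exp_pos _).le)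
      rw [← Real.exp_add]
      congr 1
      ring)
    have e4 : (0 : ℝ) ≤ E.card := Nat.cast_nonneg _
    calc (r / ρ) ^ (h / ε) ≤ Real.exp (2 * h * c) * Real.exp (h * k) := e3
      _ ≤ Real.exp (2 * h * c) * (C₁ * (N * (E.card * F.card))) :=
          mul_le_mul_of_nonneg_left (e2.trans (mul_le_mul_of_nonneg_left e1 (by linarith)))
            (Real.exp_pos _).le
      _ = K₂ * E.card := by rw [hK₂]; ring
      _ ≤ _ := mul_le_mul_of_nonneg_right ((le_max_right _ _).trans (le_max_right _ _)) e4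

end

theorem finite_case {Z : Type} [MetricSpace Z] [Finite Z] : AhlforsRegular Z := by
  letI : MeasurableSpace Z := borel Z
  haveI : BorelSpace Z := ⟨rfl⟩
  refine ⟨Finite.compactSpace, 0, Nat.card Z + 1, Measure.count, le_rfl, by
    have : (0 : ℝ) ≤ Nat.card Z := Nat.cast_nonneg _
    linarith, fun y r hr _ => ⟨?_, ?_⟩⟩
  · rw [Real.rpow_zero, mul_one]
    calc ENNReal.ofReal ((Nat.card Z + 1 : ℝ)⁻¹) ≤ ENNReal.ofReal 1 := by
          apply ENNReal.ofReal_le_ofReal
          apply inv_le_one_of_one_le₀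
          have : (0 : ℝ) ≤ Nat.card Z := Nat.cast_nonneg _
          linarith
      _ = 1 := ENNReal.ofReal_one
      _ = Measure.count {y} := (Measure.count_singleton y).symm
      _ ≤ _ := measure_mono (Set.singleton_subset_iff.2 (Metric.mem_ball_self hr))
  · rw [Real.rpow_zero, mul_one]
    calc Measure.count (Metric.ball y r) ≤ Measure.count (Set.univ : Set Z) :=
          measure_mono (Set.subset_univ _)
      _ = (Nat.card Z : ℝ≥0∞) := by
          rw [Measure.count_univ, ENat.card_eq_coe_natCard]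
          rfl
      _ = ENNReal.ofReal (Nat.card Z) := (ENNReal.ofReal_natCast _).symm
      _ ≤ _ := ENNReal.ofReal_le_ofReal (by linarith)

theorem stC : StC := by
  intro G X Z _ _ _ _ e hact hX hvis
  haveI := hact.proper
  obtain ⟨o⟩ := hact.nonempty
  obtain ⟨δ, R, H⟩ := exists_hyp hact hX o
  rcases finite_or_infinite (Boundary X) with hfin | hinf
  · haveI : Finite Z := Finite.of_equiv _ e.symm
    exact finite_case
  · obtain ⟨ε, C, hε, hC, h1, h2⟩ := hvis.working hX o
    exact infinite_case H hinf e ε C hε hC h1 h2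

end Pool.Agent.Y166.CD
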