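import Pool.Agent.Y166.CD.Graph

/-!
# The Cayley graph with edges of prescribed lengths: proof of `StB`
-/

set_option autoImplicit false
set_option linter.unusedSectionVars false
set_option linter.deprecated false

namespace Pool.Agent.Y166.CD

open Pool.Agent.Helper376.LC Pool.Agent.Y454.CD

noncomputable section

section action
variable {V : Type} [MetricSpace V] {M : ℝ} {G : Type} [Group G] [MulAction G V]
  [IsIsometricSMul G V]

instance : MulAction G (Pt V M) where
  smul g p := ⟨g • p.x, g • p.y, p.s, p.h0, by rw [dist_smul]; exact p.h1,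
    by rw [dist_smul]; exact p.hM⟩
  one_smul p := by
    show (⟨(1 : G) • p.x, (1 : G) • p.y, p.s, _, _, _⟩ : Pt V M) = p
    cases p
    simp
  mul_smul g h p := by
    show (⟨(g * h) • p.x, (g * h) • p.y, p.s, _, _, _⟩ : Pt V M) =
      ⟨g • h • p.x, g • h • p.y, p.s, _, _, _⟩
    simp [mul_smul]

theorem u_smul (g : G) (p : Pt V M) (v : V) : u (g • p) (g • v) = u p v := by
  show min (p.s + dist (g • p.x) (g • v)) (dist (g • p.x) (g • p.y) - p.s + dist (g • p.y) (g • v))
    = _
  rw [dist_smul, dist_smul, dist_smul]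
  rfl

theorem pd_smul (g : G) (p q : Pt V M) : pd (g • p) (g • q) = pd p q := by
  by_cases h : Same p q
  · have h' : Same (g • p) (g • q) := by
      constructor
      · show g • p.x = g • q.x
        rw [h.1]
      · show g • p.y = g • q.y
        rw [h.2]
    rw [pd_same h, pd_same h']
    rfl
  · have h' : ¬ Same (g • p) (g • q) := by
      intro h1
      apply h
      exact ⟨MulAction.injective g h1.1, MulAction.injective g h1.2⟩
    unfold pd
    rw [if_neg h, if_neg h']
    show min (u (g • p) (g • q.x) + q.s) (u (g • p) (g • q.y) + (dist (g • q.x) (g • q.y) - q.s)) = _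
    rw [u_smul, u_smul, dist_smul]
    rfl

instance : IsIsometricSMul G (Pt V M) := ⟨fun g => Isometry.of_dist_eq fun p q => pd_smul g p q⟩

theorem smul_cl (g : G) (p : Pt V M) : g • cl p = cl (g • p) := rfl

theorem smul_vtx (hM : 0 ≤ M) (g : G) (v : V) : g • (vtx hM v : Pt V M) = vtx hM (g • v) := rfl

end action

theorem realize (G : Type) [Group G] [MetricSpace G] (hl : ∀ g x y : G, dist (g * x) (g * y) = dist x y)
    (M : ℝ) (hM : 0 ≤ M) (hfin : ∀ r : ℝ, {g : G | dist 1 g ≤ r}.Finite)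
    (hch : ∀ v w : G, Ch M v w) :
    ∃ (X : Type) (_ : MetricSpace X) (_ : MulAction G X) (o : X), GeometricAction G X ∧
      ∀ g : G, dist o (g • o) = dist 1 g := by
  haveI : IsIsometricSMul G G := ⟨fun g => Isometry.of_dist_eq (hl g)⟩
  have hfin' : ∀ (v : G) (r : ℝ), {w : G | dist v w ≤ r}.Finite := by
    intro v r
    refine ((hfin r).image (fun g => v * g)).subset ?_
    intro w hw
    refine ⟨v⁻¹ * w, ?_, by simp⟩
    have h1 := hl v 1 (v⁻¹ * w)
    rw [mul_one, mul_inv_cancel_left] at h1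
    rw [Set.mem_setOf_eq, ← h1]
    exact hw
  have hiso : ∀ (g : G) (x y : Gr G M), dist (g • x) (g • y) = dist x y := by
    intro g x y
    obtain ⟨p, rfl⟩ := SeparationQuotient.surjective_mk x
    obtain ⟨q, rfl⟩ := SeparationQuotient.surjective_mk y
    change dist (g • cl p) (g • cl q) = dist (cl p) (cl q)
    rw [smul_cl, smul_cl, dist_cl, dist_cl]
    exact pd_smul g p q
  haveI := proper hM hfin' (1 : G)
  have ho : ∀ g : G, dist (cl (vtx hM (1 : G)) : Gr G M) (g • cl (vtx hM (1 : G))) = dist 1 g := by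
    intro g
    rw [smul_cl, smul_vtx, dist_cl, dist_vtx_vtx, smul_eq_mul, mul_one]
  refine ⟨Gr G M, inferInstance, inferInstance, cl (vtx hM (1 : G)),
    ⟨⟨cl (vtx hM (1 : G))⟩, inferInstance, geodesic hM hch, hiso, ?_, ?_⟩, ho⟩
  · intro K hK
    obtain ⟨r, hr⟩ := hK.isBounded.subset_closedBall (cl (vtx hM (1 : G)))
    refine (hfin (2 * r)).subset ?_
    rintro g ⟨z, ⟨x, hx, rfl⟩, hz⟩
    have h1 := hr hx
    have h2 := hr hz
    rw [Metric.mem_closedBall] at h1 h2
    have h3 := dist_triangle (cl (vtx hM (1 : G)) : Gr G M) (g • x) (g • cl (vtx hM (1 : G)))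
    rw [ho, hiso, dist_comm _ (g • x)] at h3
    rw [Set.mem_setOf_eq]
    linarith
  · refine ⟨Metric.closedBall (cl (vtx hM (1 : G))) M, isCompact_closedBall _ _, ?_⟩
    intro z
    obtain ⟨p, rfl⟩ := SeparationQuotient.surjective_mk z
    refine ⟨p.x⁻¹, ?_⟩
    rw [Metric.mem_closedBall]
    change dist (p.x⁻¹ • cl p) (cl (vtx hM (1 : G))) ≤ M
    have h1 : (cl (vtx hM (1 : G)) : Gr G M) = p.x⁻¹ • cl (vtx hM p.x) := by
      rw [smul_cl, smul_vtx, smul_eq_mul, inv_mul_cancel]
    rw [h1, hiso, dist_cl, dist_vtx, u_x]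
    exact p.h1.trans p.hM

section words
variable {G : Type} [Group G] {B : Set G}

/-- product of a word -/
def prodL (w : List B) : G := (w.map Subtype.val).prod

/-- length of a word -/
def sumL (ℓ : G → ℝ) (w : List B) : ℝ := (w.map (fun t => ℓ t.1)).sum

theorem prodL_append (w w' : List B) : prodL (w ++ w') = prodL w * prodL w' := by
  simp [prodL]

theorem sumL_append (ℓ : G → ℝ) (w w' : List B) : sumL ℓ (w ++ w') = sumL ℓ w + sumL ℓ w' := by
  simp [sumL]

/-- inverse word -/
def invL (hB : ∀ t ∈ B, t⁻¹ ∈ B) (w : List B) : List B :=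
  (w.map (fun t => (⟨t.1⁻¹, hB t.1 t.2⟩ : B))).reverse

theorem prodL_inv (hB : ∀ t ∈ B, t⁻¹ ∈ B) (w : List B) : prodL (invL hB w) = (prodL w)⁻¹ := by
  unfold prodL invL
  rw [List.prod_inv_reverse, List.map_reverse, List.map_map, List.map_map]
  rfl

theorem sumL_inv (hB : ∀ t ∈ B, t⁻¹ ∈ B) {ℓ : G → ℝ} (hℓ : ∀ t ∈ B, ℓ t⁻¹ = ℓ t) (w : List B) :
    sumL ℓ (invL hB w) = sumL ℓ w := by
  unfold sumL invL
  rw [List.map_reverse, List.sum_reverse, List.map_map]
  congr 1
  apply List.map_congr_left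
  intro t _
  exact hℓ t.1 t.2

theorem exists_word (hgen : Subgroup.closure B = ⊤) (hB : ∀ t ∈ B, t⁻¹ ∈ B) (g : G) :
    ∃ w : List B, prodL w = g := by
  have hg : g ∈ Subgroup.closure B := by rw [hgen]; trivial
  induction hg using Subgroup.closure_induction with
  | mem x hx => exact ⟨[⟨x, hx⟩], by simp [prodL]⟩
  | one => exact ⟨[], by simp [prodL]⟩
  | mul x y _ _ hx hy =>
    obtain ⟨w, rfl⟩ := hx
    obtain ⟨w', rfl⟩ := hy
    exact ⟨w ++ w', prodL_append w w'⟩
  | inv x _ hx =>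
    obtain ⟨w, rfl⟩ := hx
    exact ⟨invL hB w, prodL_inv hB w⟩

theorem sumL_ge {ℓ : G → ℝ} {c : ℝ} (hc : ∀ t ∈ B, c ≤ ℓ t) (w : List B) :
    c * w.length ≤ sumL ℓ w := by
  induction w with
  | nil => simp [sumL]
  | cons t w ih =>
    have h1 : sumL ℓ (t :: w) = ℓ t.1 + sumL ℓ w := by simp [sumL]
    rw [h1, List.length_cons]
    push_cast
    have := hc t.1 t.2
    linarith

theorem finite_words (hBf : B.Finite) {ℓ : G → ℝ} {c : ℝ} (hc0 : 0 < c) (hc : ∀ t ∈ B, c ≤ ℓ t)
    (r : ℝ) : {w : List B | sumL ℓ w ≤ r}.Finite := by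
  haveI : Finite B := hBf
  refine (List.finite_length_le B ⌊r / c⌋₊).subset ?_
  intro w hw
  rw [Set.mem_setOf_eq] at hw ⊢
  apply Nat.le_floor
  rw [le_div_iff₀ hc0, mul_comm]
  exact (sumL_ge hc w).trans hw

end words

theorem stB : StB := by
  intro G _ B ℓ hBf hgen hB hpos hℓ
  -- bounds for the lengths
  obtain ⟨c, hc0, hc⟩ : ∃ c : ℝ, 0 < c ∧ ∀ t ∈ B, c ≤ ℓ t := by
    rcases B.eq_empty_or_nonempty with h | h
    · exact ⟨1, one_pos, by rw [h]; intro t ht; exact absurd ht (Set.notMem_empty t)⟩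
    · obtain ⟨t, ht, htm⟩ := Set.exists_min_image B ℓ hBf h
      exact ⟨ℓ t, hpos t ht, htm⟩
  obtain ⟨M, hM, hMt⟩ : ∃ M : ℝ, 0 ≤ M ∧ ∀ t ∈ B, ℓ t ≤ M := by
    rcases B.eq_empty_or_nonempty with h | h
    · exact ⟨0, le_rfl, by rw [h]; intro t ht; exact absurd ht (Set.notMem_empty t)⟩
    · obtain ⟨t, ht, htm⟩ := Set.exists_max_image B ℓ hBf h
      exact ⟨ℓ t, (hpos t ht).le, htm⟩
  have hmin : ∀ g : G, ∃ w : List B, prodL w = g ∧ ∀ w' : List B, prodL w' = g → sumL ℓ w ≤ sumL ℓ w' := by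
    intro g
    obtain ⟨w₀, hw₀⟩ := exists_word hgen hB g
    have hfin : {w : List B | prodL w = g ∧ sumL ℓ w ≤ sumL ℓ w₀}.Finite :=
      (finite_words hBf hc0 hc (sumL ℓ w₀)).subset fun w hw => hw.2
    obtain ⟨w, hw, hwm⟩ := Set.exists_min_image _ (sumL ℓ) hfin ⟨w₀, hw₀, le_rfl⟩
    refine ⟨w, hw.1, fun w' hw' => ?_⟩
    rcases le_total (sumL ℓ w') (sumL ℓ w₀) with h | h
    · exact hwm w' ⟨hw', h⟩
    · exact hw.2.trans h
  choose mw hmw1 hmw2 using hmin
  set N : G → ℝ := fun g => sumL ℓ (mw g) with hN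
  have hNle : ∀ w : List B, N (prodL w) ≤ sumL ℓ w := fun w => hmw2 _ w rfl
  have hNle' : ∀ (w : List B) (g : G), prodL w = g → N g ≤ sumL ℓ w := fun w g h => hmw2 g w h
  have hN0 : ∀ g, 0 ≤ N g := by
    intro g
    refine le_trans ?_ (sumL_ge hc (mw g))
    positivity
  have hN1 : N 1 = 0 := by
    apply le_antisymm _ (hN0 1)
    have := hNle' ([] : List B) 1 (by simp [prodL])
    simpa [sumL] using this
  have hNinv : ∀ g, N g⁻¹ ≤ N g := by
    intro g
    have := hNle' (invL hB (mw g)) g⁻¹ (by rw [prodL_inv, hmw1])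
    rwa [sumL_inv hB hℓ] at this
  have hNmul : ∀ g h, N (g * h) ≤ N g + N h := by
    intro g h
    have := hNle' (mw g ++ mw h) (g * h) (by rw [prodL_append, hmw1, hmw1])
    rwa [sumL_append] at this
  have hNz : ∀ g, N g = 0 → g = 1 := by
    intro g hg
    have h1 := sumL_ge hc (mw g)
    have h2 : (mw g).length = 0 := by
      have h3 : c * ((mw g).length : ℝ) ≤ 0 := h1.trans (le_of_eq hg)
      have h4 : ((mw g).length : ℝ) ≤ 0 := by
        by_contra h5
        have := mul_pos hc0 (not_le.1 h5)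
        linarith
      exact_mod_cast le_antisymm h4 (Nat.cast_nonneg _)
    have h3 := hmw1 g
    rw [List.length_eq_zero_iff] at h2
    rw [h2] at h3
    rw [← h3]; simp [prodL]
  letI inst : MetricSpace G :=
    { dist := fun g h => N (g⁻¹ * h)
      dist_self := fun g => by show N (g⁻¹ * g) = 0; rw [inv_mul_cancel, hN1]
      dist_comm := fun g h => by
        show N (g⁻¹ * h) = N (h⁻¹ * g)
        have e1 : (g⁻¹ * h)⁻¹ = h⁻¹ * g := by group
        have e2 : (h⁻¹ * g)⁻¹ = g⁻¹ * h := by group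
        apply le_antisymm
        · have := hNinv (h⁻¹ * g); rwa [e2] at this
        · have := hNinv (g⁻¹ * h); rwa [e1] at this
      dist_triangle := fun x y z => by
        show N (x⁻¹ * z) ≤ N (x⁻¹ * y) + N (y⁻¹ * z)
        have e1 : x⁻¹ * z = (x⁻¹ * y) * (y⁻¹ * z) := by group
        rw [e1]; exact hNmul _ _
      eq_of_dist_eq_zero := fun {x y} h => by
        have h1 : x⁻¹ * y = 1 := hNz _ h
        exact (inv_mul_eq_one.1 h1) }
  have hdist : ∀ g h : G, dist g h = N (g⁻¹ * h) := fun _ _ => rfl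
  have hl : ∀ g x y : G, dist (g * x) (g * y) = dist x y := by
    intro g x y
    rw [hdist, hdist]
    congr 1
    group
  have hd1 : ∀ g : G, dist 1 g = N g := by
    intro g; rw [hdist, inv_one, one_mul]
  have hfin : ∀ r : ℝ, {g : G | dist 1 g ≤ r}.Finite := by
    intro r
    refine ((finite_words hBf hc0 hc r).image prodL).subset ?_
    intro g hg
    rw [Set.mem_setOf_eq, hd1] at hg
    exact ⟨mw g, hg, hmw1 g⟩
  have hch : ∀ v w : G, Ch M v w := by
    have key : ∀ (w : List B), N (prodL w) = sumL ℓ w → ∀ v : G, Ch M v (v * prodL w) := by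
      intro w
      induction w with
      | nil => intro _ v; simpa [prodL] using Ch.refl (M := M) v
      | cons t w ih =>
        intro h v
        have e1 : prodL (t :: w) = t.1 * prodL w := by simp [prodL]
        have e2 : sumL ℓ (t :: w) = ℓ t.1 + sumL ℓ w := by simp [sumL]
        have e3 : N t.1 ≤ ℓ t.1 := by
          have := hNle' [t] t.1 (by simp [prodL])
          simpa [sumL] using this
        have e4 := hNle w
        have e5 := hNmul t.1 (prodL w)
        rw [e1, e2] at h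
        have e6 : N (prodL w) = sumL ℓ w := by linarith
        have e7 := ih e6 (v * t.1)
        rw [e1]
        refine Ch.step v (v * t.1) _ ?_ ?_ ?_
        · rw [hdist, inv_mul_cancel_left]
          exact e3.trans (hMt t.1 t.2)
        · rw [hdist, hdist, hdist, inv_mul_cancel_left, inv_mul_cancel_left]
          have e8 : (v * t.1)⁻¹ * (v * (t.1 * prodL w)) = prodL w := by group
          rw [e8]; linarith
        · rw [← mul_assoc]; exact e7
    intro v w
    have h1 := key (mw (v⁻¹ * w)) (by rw [hmw1]) v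
    rwa [hmw1, mul_inv_cancel_left] at h1
  obtain ⟨X, i1, i2, o, hgeo, hd⟩ := realize G hl M hM hfin hch
  refine ⟨X, i1, i2, o, hgeo, ?_, ?_⟩
  · intro t ht
    rw [hd, hd1]
    have := hNle' [⟨t, ht⟩] t (by simp [prodL])
    simpa [sumL] using this
  · intro g
    refine ⟨(mw g).map Subtype.val, ?_, hmw1 g, ?_⟩
    · intro t ht
      obtain ⟨b, _, rfl⟩ := List.mem_map.1 ht
      exact b.2
    · rw [hd, hd1, List.map_map]
      exact le_rfl

end

end Pool.Agent.Y166.CD
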