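import Mathlib
import Pool.Agent.Y454.CD.Stm

/-!
# The metric graph over a metric space

`V` is a metric space; all pairs of points at distance at most `M` are joined by an edge.
-/

set_option autoImplicit false
set_option linter.unusedSectionVars false
set_option linter.deprecated false

namespace Pool.Agent.Y166.CD

open Pool.Agent.Helper376.LC Pool.Agent.Y454.CD

noncomputable section

/-- points of the edges -/
structure Pt (V : Type) [MetricSpace V] (M : ℝ) where
  x : V
  y : V
  s : ℝ
  h0 : 0 ≤ s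
  h1 : s ≤ dist x y
  hM : dist x y ≤ M

variable {V : Type} [MetricSpace V] {M : ℝ}

/-- distance to a vertex -/
def u (p : Pt V M) (v : V) : ℝ := min (p.s + dist p.x v) (dist p.x p.y - p.s + dist p.y v)

/-- distance through a vertex -/
def DD (p q : Pt V M) : ℝ := min (u p q.x + q.s) (u p q.y + (dist q.x q.y - q.s))

/-- the same edge -/
def Same (p q : Pt V M) : Prop := p.x = q.x ∧ p.y = q.y

theorem u_lip (p : Pt V M) (v w : V) : u p v ≤ u p w + dist v w := by
  unfold u
  have h1 := dist_triangle p.x w v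
  have h2 := dist_triangle p.y w v
  rw [dist_comm w v] at h1 h2
  rcases le_total (p.s + dist p.x w) (dist p.x p.y - p.s + dist p.y w) with h | h
  · rw [min_eq_left h]
    exact (min_le_left _ _).trans (by linarith)
  · rw [min_eq_right h]
    exact (min_le_right _ _).trans (by linarith)

theorem u_add (p : Pt V M) (v w : V) : dist v w ≤ u p v + u p w := by
  unfold u
  have hx := dist_triangle_left v w p.x
  have hy := dist_triangle_left v w p.y
  have h1 := p.h0
  have h2 := p.h1
  have hxy : dist v w ≤ dist p.x v + dist p.x p.y + dist p.y w := by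
    have h3 := dist_triangle v p.x w
    have h4 := dist_triangle p.x p.y w
    rw [dist_comm v p.x] at h3
    linarith
  have hyx : dist v w ≤ dist p.y v + dist p.x p.y + dist p.x w := by
    have h3 := dist_triangle v p.y w
    have h4 := dist_triangle p.y p.x w
    rw [dist_comm v p.y] at h3
    rw [dist_comm p.y p.x] at h4
    linarith
  rcases min_choice (p.s + dist p.x v) (dist p.x p.y - p.s + dist p.y v) with h | h <;>
    rcases min_choice (p.s + dist p.x w) (dist p.x p.y - p.s + dist p.y w) with h' | h' <;>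
    rw [h, h'] <;> linarith

theorem u_nonneg (p : Pt V M) (v : V) : 0 ≤ u p v := by
  have := u_add p v v
  rw [dist_self] at this
  linarith

theorem u_x (p : Pt V M) : u p p.x = p.s := by
  unfold u
  have h1 := p.h0
  have h2 := p.h1
  rw [dist_self, dist_comm p.y p.x, min_eq_left (by linarith)]
  ring

theorem u_y (p : Pt V M) : u p p.y = dist p.x p.y - p.s := by
  unfold u
  have h1 := p.h0
  have h2 := p.h1
  rw [dist_self, min_eq_right (by linarith)]
  ring

theorem DD_le (p q : Pt V M) (v : V) : DD p q ≤ u p v + u q v := by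
  unfold DD
  have h1 := u_lip p q.x v
  have h2 := u_lip p q.y v
  rcases min_choice (q.s + dist q.x v) (dist q.x q.y - q.s + dist q.y v) with h | h
  · refine (min_le_left _ _).trans ?_
    have h3 : u q v = q.s + dist q.x v := h
    rw [h3]; linarith
  · refine (min_le_right _ _).trans ?_
    have h3 : u q v = dist q.x q.y - q.s + dist q.y v := h
    rw [h3]; linarith

theorem DD_eq (p q : Pt V M) : ∃ v, DD p q = u p v + u q v := by
  unfold DD
  rcases min_choice (u p q.x + q.s) (u p q.y + (dist q.x q.y - q.s)) with h | h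
  · exact ⟨q.x, by rw [h, u_x]⟩
  · exact ⟨q.y, by rw [h, u_y]⟩

theorem same_u {p q : Pt V M} (h : Same p q) (v : V) : u p v ≤ |p.s - q.s| + u q v := by
  unfold u
  rw [h.1, h.2]
  have h1 := le_abs_self (p.s - q.s)
  have h2 := neg_abs_le (p.s - q.s)
  rcases min_choice (q.s + dist q.x v) (dist q.x q.y - q.s + dist q.y v) with h | h
  · rw [h]; exact (min_le_left _ _).trans (by linarith)
  · rw [h]; exact (min_le_right _ _).trans (by linarith)

theorem same_le {p q : Pt V M} (h : Same p q) (v : V) : |p.s - q.s| ≤ u p v + u q v := by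
  have hp0 := p.h0
  have hp1 := p.h1
  have hq0 := q.h0
  have hq1 := q.h1
  have h1 : dist p.x p.y ≤ dist p.x v + dist p.y v := by
    have := dist_triangle_right p.x p.y v
    linarith
  have n1 := dist_nonneg (x := p.x) (y := v)
  have n2 := dist_nonneg (x := p.y) (y := v)
  unfold u
  rw [← h.1, ← h.2]
  rw [← h.1, ← h.2] at hq1
  rw [abs_le]
  rcases min_choice (p.s + dist p.x v) (dist p.x p.y - p.s + dist p.y v) with h | h <;>
    rcases min_choice (q.s + dist p.x v) (dist p.x p.y - q.s + dist p.y v) with h' | h' <;>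
    rw [h, h'] <;> constructor <;> linarith

open Classical in
/-- the distance -/
def pd (p q : Pt V M) : ℝ := if Same p q then |p.s - q.s| else DD p q

theorem pd_le (p q : Pt V M) (v : V) : pd p q ≤ u p v + u q v := by
  unfold pd
  split_ifs with h
  · exact same_le h v
  · exact DD_le p q v

theorem pd_cases (p q : Pt V M) : (Same p q ∧ pd p q = |p.s - q.s|) ∨
    ∃ v, pd p q = u p v + u q v := by
  unfold pd
  split_ifs with h
  · exact Or.inl ⟨h, rfl⟩
  · exact Or.inr (DD_eq p q)

theorem same_symm {p q : Pt V M} (h : Same p q) : Same q p := ⟨h.1.symm, h.2.symm⟩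

theorem pd_self (p : Pt V M) : pd p p = 0 := by
  unfold pd
  rw [if_pos ⟨rfl, rfl⟩, sub_self, abs_zero]

theorem pd_same {p q : Pt V M} (h : Same p q) : pd p q = |p.s - q.s| := by
  unfold pd; rw [if_pos h]

theorem pd_comm_le (p q : Pt V M) : pd p q ≤ pd q p := by
  rcases pd_cases q p with ⟨h, h'⟩ | ⟨v, hv⟩
  · rw [h', pd_same (same_symm h), abs_sub_comm]
  · rw [hv, add_comm]; exact pd_le p q v

theorem pd_comm (p q : Pt V M) : pd p q = pd q p := le_antisymm (pd_comm_le p q) (pd_comm_le q p)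

theorem pd_triangle (p q r : Pt V M) : pd p r ≤ pd p q + pd q r := by
  rcases pd_cases p q with ⟨h, h'⟩ | ⟨v, hv⟩
  · rcases pd_cases q r with ⟨k, k'⟩ | ⟨w, hw⟩
    · have h3 : Same p r := ⟨h.1.trans k.1, h.2.trans k.2⟩
      rw [pd_same h3, h', k']
      exact abs_sub_le _ _ _
    · have h1 := pd_le p r w
      have h2 := same_u h w
      rw [h', hw]; linarith
  · rcases pd_cases q r with ⟨k, k'⟩ | ⟨w, hw⟩
    · have h1 := pd_le p r v
      have h2 := same_u (same_symm k) v
      rw [abs_sub_comm] at h2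
      rw [hv, k']; linarith
    · have h1 := pd_le p r w
      have h2 := u_lip p w v
      have h3 := u_add q v w
      rw [dist_comm w v] at h2
      rw [hv, hw]; linarith

instance : PseudoMetricSpace (Pt V M) where
  dist := pd
  dist_self := pd_self
  dist_comm := pd_comm
  dist_triangle := pd_triangle

theorem dist_def (p q : Pt V M) : dist p q = pd p q := rfl

/-- vertices -/
def vtx (hM : 0 ≤ M) (v : V) : Pt V M := ⟨v, v, 0, le_rfl, by rw [dist_self], by rw [dist_self]; exact hM⟩

theorem u_vtx (hM : 0 ≤ M) (v w : V) : u (vtx hM v : Pt V M) w = dist v w := by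
  unfold u vtx
  simp

theorem dist_vtx (hM : 0 ≤ M) (p : Pt V M) (v : V) : dist p (vtx hM v) = u p v := by
  apply le_antisymm
  · have h := pd_le p (vtx hM v) v
    rw [u_vtx, dist_self, add_zero] at h
    exact h
  · rw [dist_def]
    rcases pd_cases p (vtx hM v) with ⟨h, h'⟩ | ⟨w, hw⟩
    · rw [h']
      have h1 := same_u h v
      rw [u_vtx, dist_self, add_zero] at h1
      exact h1
    · rw [hw, u_vtx]
      have h1 := u_lip p v w
      exact h1

theorem dist_vtx_vtx (hM : 0 ≤ M) (v w : V) : dist (vtx hM v : Pt V M) (vtx hM w) = dist v w := by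
  rw [dist_vtx, u_vtx]

/-- the graph -/
abbrev Gr (V : Type) [MetricSpace V] (M : ℝ) : Type := SeparationQuotient (Pt V M)

/-- the class of a point -/
abbrev cl (p : Pt V M) : Gr V M := SeparationQuotient.mk p

theorem dist_cl (p q : Pt V M) : dist (cl p) (cl q) = dist p q := SeparationQuotient.dist_mk p q

theorem cl_eq {p q : Pt V M} (h : dist p q = 0) : cl p = cl q := by
  rw [← dist_eq_zero, dist_cl, h]

/-! ### geodesics -/

/-- there is a geodesic -/
def Geo {X : Type} [MetricSpace X] (x y : X) : Prop :=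
  ∃ γ : ℝ → X, γ 0 = x ∧ γ (dist x y) = y ∧
    ∀ s ∈ Set.Icc (0 : ℝ) (dist x y), ∀ t ∈ Set.Icc (0 : ℝ) (dist x y),
      dist (γ s) (γ t) = |s - t|

theorem Geo.refl {X : Type} [MetricSpace X] (x : X) : Geo x x := by
  refine ⟨fun _ => x, rfl, rfl, ?_⟩
  intro s hs t ht
  rw [dist_self, Set.Icc_self, Set.mem_singleton_iff] at hs ht
  rw [hs, ht, dist_self, sub_self, abs_zero]

theorem Geo.symm {X : Type} [MetricSpace X] {x y : X} (h : Geo x y) : Geo y x := by
  obtain ⟨γ, h1, h2, h3⟩ := h
  refine ⟨fun s => γ (dist x y - s), ?_, ?_, ?_⟩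
  · show γ (dist x y - 0) = y
    rw [sub_zero, h2]
  · show γ (dist x y - dist y x) = x
    rw [dist_comm y x, sub_self, h1]
  · intro s hs t ht
    rw [dist_comm y x] at hs ht
    rw [h3 _ ⟨by linarith [hs.2], by linarith [hs.1]⟩ _ ⟨by linarith [ht.2], by linarith [ht.1]⟩]
    rw [abs_sub_comm]
    congr 1
    ring

theorem Geo.trans {X : Type} [MetricSpace X] {x y z : X} (h : Geo x y) (h' : Geo y z)
    (hd : dist x z = dist x y + dist y z) : Geo x z := by
  obtain ⟨γ, h1, h2, h3⟩ := h
  obtain ⟨γ', h1', h2', h3'⟩ := h'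
  have hxy := dist_nonneg (x := x) (y := y)
  have hyz := dist_nonneg (x := y) (y := z)
  have key : ∀ s ∈ Set.Icc (0 : ℝ) (dist x z), ∀ t ∈ Set.Icc (0 : ℝ) (dist x z), s ≤ t →
      dist (if s ≤ dist x y then γ s else γ' (s - dist x y))
        (if t ≤ dist x y then γ t else γ' (t - dist x y)) = t - s := by
    intro s hs t ht hst
    by_cases h5 : t ≤ dist x y
    · have h4 : s ≤ dist x y := hst.trans h5
      rw [if_pos h4, if_pos h5, h3 s ⟨hs.1, h4⟩ t ⟨ht.1, h5⟩, abs_sub_comm, abs_of_nonneg]
      linarith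
    · have h5' : dist x y < t := not_le.1 h5
      have ht2 : t - dist x y ≤ dist y z := by linarith [ht.2]
      by_cases h4 : s ≤ dist x y
      · rw [if_pos h4, if_neg h5]
        apply le_antisymm
        · have e1 := dist_triangle (γ s) y (γ' (t - dist x y))
          have e2 : dist (γ s) y = dist x y - s := by
            have e4 := h3 s ⟨hs.1, h4⟩ (dist x y) ⟨hxy, le_rfl⟩
            rw [h2, abs_sub_comm, abs_of_nonneg (by linarith)] at e4
            exact e4
          have e3 : dist y (γ' (t - dist x y)) = t - dist x y := by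
            have e4 := h3' 0 ⟨le_rfl, hyz⟩ (t - dist x y) ⟨by linarith, ht2⟩
            rw [h1', abs_sub_comm, sub_zero, abs_of_nonneg (by linarith)] at e4
            exact e4
          linarith
        · have e1 := dist_triangle4 x (γ s) (γ' (t - dist x y)) z
          have e2 : dist x (γ s) = s := by
            have e4 := h3 0 ⟨le_rfl, hxy⟩ s ⟨hs.1, h4⟩
            rw [h1, abs_sub_comm, sub_zero, abs_of_nonneg hs.1] at e4
            exact e4
          have e3 : dist (γ' (t - dist x y)) z = dist y z - (t - dist x y) := by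
            have e4 := h3' (t - dist x y) ⟨by linarith, ht2⟩ (dist y z) ⟨hyz, le_rfl⟩
            rw [h2', abs_sub_comm, abs_of_nonneg (by linarith)] at e4
            exact e4
          linarith
      · have h4' : dist x y < s := not_le.1 h4
        rw [if_neg h4, if_neg h5, h3' _ ⟨by linarith, by linarith [hs.2]⟩ _ ⟨by linarith, ht2⟩,
          abs_sub_comm, abs_of_nonneg]
        · ring
        · linarith
  refine ⟨fun s => if s ≤ dist x y then γ s else γ' (s - dist x y), ?_, ?_, ?_⟩
  · show (if (0 : ℝ) ≤ dist x y then γ 0 else γ' (0 - dist x y)) = x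
    rw [if_pos hxy, h1]
  · show (if dist x z ≤ dist x y then γ (dist x z) else γ' (dist x z - dist x y)) = z
    split_ifs with h5
    · have h6 : dist y z = 0 := by linarith
      have h7 : y = z := dist_eq_zero.1 h6
      subst h7
      exact h2
    · rw [hd, add_sub_cancel_left, h2']
  · intro s hs t ht
    rcases le_total s t with hst | hst
    · rw [abs_sub_comm, abs_of_nonneg (by linarith)]
      exact key s hs t ht hst
    · rw [abs_of_nonneg (by linarith), dist_comm]
      exact key t ht s hs hst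

/-- two points of the same edge are joined by a geodesic -/
theorem geo_same {p q : Pt V M} (h : Same p q) (hs : p.s ≤ q.s) : Geo (cl p) (cl q) := by
  have hd : dist (cl p) (cl q) = q.s - p.s := by
    rw [dist_cl, dist_def, pd_same h, abs_sub_comm, abs_of_nonneg (by linarith)]
  have hclamp : ∀ t : ℝ, 0 ≤ max p.s (min q.s (p.s + t)) ∧
      max p.s (min q.s (p.s + t)) ≤ dist p.x p.y := by
    intro t
    refine ⟨p.h0.trans (le_max_left _ _), max_le p.h1 ((min_le_left _ _).trans ?_)⟩
    rw [h.1, h.2]; exact q.h1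
  refine ⟨fun t => cl ⟨p.x, p.y, max p.s (min q.s (p.s + t)), (hclamp t).1, (hclamp t).2, p.hM⟩,
    ?_, ?_, ?_⟩
  · apply cl_eq
    rw [dist_def, pd_same (by exact ⟨rfl, rfl⟩)]
    simp [hs]
  · apply cl_eq
    rw [dist_def, pd_same (by exact ⟨h.1, h.2⟩), hd]
    simp [hs]
  · intro a ha b hb
    rw [hd] at ha hb
    rw [dist_cl, dist_def, pd_same (by exact ⟨rfl, rfl⟩)]
    show |max p.s (min q.s (p.s + a)) - max p.s (min q.s (p.s + b))| = |a - b|
    rw [min_eq_right (by linarith [ha.2]), min_eq_right (by linarith [hb.2]),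
      max_eq_right (by linarith [ha.1]), max_eq_right (by linarith [hb.1])]
    congr 1
    ring

theorem cl_zero (hM : 0 ≤ M) (p : Pt V M) :
    cl (⟨p.x, p.y, 0, le_rfl, dist_nonneg, p.hM⟩ : Pt V M) = cl (vtx hM p.x) := by
  apply cl_eq
  rw [dist_vtx]
  exact u_x (⟨p.x, p.y, 0, le_rfl, dist_nonneg, p.hM⟩ : Pt V M)

theorem cl_one (hM : 0 ≤ M) (p : Pt V M) :
    cl (⟨p.x, p.y, dist p.x p.y, dist_nonneg, le_rfl, p.hM⟩ : Pt V M) = cl (vtx hM p.y) := by
  apply cl_eq
  rw [dist_vtx]
  have h := u_y (⟨p.x, p.y, dist p.x p.y, dist_nonneg, le_rfl, p.hM⟩ : Pt V M)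
  simpa using h

theorem geo_x (hM : 0 ≤ M) (p : Pt V M) : Geo (cl (vtx hM p.x)) (cl p) := by
  rw [← cl_zero hM p]
  exact geo_same ⟨rfl, rfl⟩ p.h0

theorem geo_y (hM : 0 ≤ M) (p : Pt V M) : Geo (cl p) (cl (vtx hM p.y)) := by
  rw [← cl_one hM p]
  exact geo_same ⟨rfl, rfl⟩ p.h1

/-- chains of short steps along which the distance is additive -/
inductive Ch (M : ℝ) : V → V → Prop
  | refl (v : V) : Ch M v v
  | step (v v' w : V) : dist v v' ≤ M → dist v w = dist v v' + dist v' w → Ch M v' w → Ch M v w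

theorem geo_vtx (hM : 0 ≤ M) {v w : V} (h : Ch M v w) :
    Geo (cl (vtx hM v : Pt V M)) (cl (vtx hM w)) := by
  induction h with
  | refl v => exact Geo.refl _
  | step v v' w h1 h2 _ ih =>
    refine Geo.trans (y := cl (vtx hM v')) ?_ ih ?_
    · have h3 := geo_y hM (⟨v, v', 0, le_rfl, dist_nonneg, h1⟩ : Pt V M)
      rwa [cl_zero hM (⟨v, v', 0, le_rfl, dist_nonneg, h1⟩ : Pt V M)] at h3
    · rw [dist_cl, dist_cl, dist_cl, dist_vtx_vtx, dist_vtx_vtx, dist_vtx_vtx, h2]

theorem geo_pt_vtx (hM : 0 ≤ M) (hch : ∀ v w : V, Ch M v w) (p : Pt V M) (v : V) :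
    Geo (cl p) (cl (vtx hM v)) := by
  rcases min_choice (p.s + dist p.x v) (dist p.x p.y - p.s + dist p.y v) with h | h
  · refine Geo.trans (geo_x hM p).symm (geo_vtx hM (hch p.x v)) ?_
    rw [dist_cl, dist_cl, dist_cl, dist_vtx, dist_vtx, dist_vtx_vtx, u_x]
    exact h
  · refine Geo.trans (geo_y hM p) (geo_vtx hM (hch p.y v)) ?_
    rw [dist_cl, dist_cl, dist_cl, dist_vtx, dist_vtx, dist_vtx_vtx, u_y]
    exact h

theorem geodesic (hM : 0 ≤ M) (hch : ∀ v w : V, Ch M v w) : GeodesicSpace (Gr V M) := by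
  intro x y
  obtain ⟨p, rfl⟩ := SeparationQuotient.surjective_mk x
  obtain ⟨q, rfl⟩ := SeparationQuotient.surjective_mk y
  rcases pd_cases p q with ⟨h, h'⟩ | ⟨v, hv⟩
  · rcases le_total p.s q.s with hs | hs
    · exact geo_same h hs
    · exact (geo_same (same_symm h) hs).symm
  · refine Geo.trans (geo_pt_vtx hM hch p v) (geo_pt_vtx hM hch q v).symm ?_
    rw [dist_comm (cl (vtx hM v)) (cl q), dist_cl, dist_cl, dist_cl, dist_vtx, dist_vtx, dist_def,
      hv]

/-! ### properness -/

theorem edge_compact (x y : V) (hM : dist x y ≤ M) :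
    IsCompact {z : Gr V M | ∃ p : Pt V M, p.x = x ∧ p.y = y ∧ cl p = z} := by
  have hcl : ∀ t : ℝ, 0 ≤ max 0 (min (dist x y) t) ∧ max 0 (min (dist x y) t) ≤ dist x y :=
    fun t => ⟨le_max_left _ _, max_le dist_nonneg (min_le_left _ _)⟩
  let γ : ℝ → Gr V M := fun t =>
    cl ⟨x, y, max 0 (min (dist x y) t), (hcl t).1, (hcl t).2, hM⟩
  have hγ : LipschitzWith 1 γ := by
    refine LipschitzWith.of_dist_le_mul fun a b => ?_
    show dist (cl _) (cl _) ≤ _
    rw [dist_cl, dist_def, pd_same (by exact ⟨rfl, rfl⟩)]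
    show |max 0 (min (dist x y) a) - max 0 (min (dist x y) b)| ≤ _
    rw [NNReal.coe_one, one_mul, Real.dist_eq]
    refine (abs_max_sub_max_le_max _ _ _ _).trans ?_
    rw [sub_self, abs_zero]
    refine max_le (abs_nonneg _) ((abs_min_sub_min_le_max _ _ _ _).trans ?_)
    rw [sub_self, abs_zero]
    exact max_le (abs_nonneg _) le_rfl
  have h1 : {z : Gr V M | ∃ p : Pt V M, p.x = x ∧ p.y = y ∧ cl p = z} ⊆
      γ '' Set.Icc 0 (dist x y) := by
    rintro z ⟨p, rfl, rfl, rfl⟩
    refine ⟨p.s, ⟨p.h0, p.h1⟩, ?_⟩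
    apply cl_eq
    rw [dist_def, pd_same (by exact ⟨rfl, rfl⟩)]
    simp [p.h0, p.h1]
  have h2 : γ '' Set.Icc 0 (dist x y) ⊆
      {z : Gr V M | ∃ p : Pt V M, p.x = x ∧ p.y = y ∧ cl p = z} := by
    rintro z ⟨t, _, rfl⟩
    exact ⟨_, rfl, rfl, rfl⟩
  rw [Set.Subset.antisymm h1 h2]
  exact isCompact_Icc.image hγ.continuous

theorem proper (hM : 0 ≤ M) (hfin : ∀ (v : V) (r : ℝ), {w : V | dist v w ≤ r}.Finite)
    (v₀ : V) : ProperSpace (Gr V M) := by
  have hb : ∀ r : ℝ, IsCompact (Metric.closedBall (cl (vtx hM v₀) : Gr V M) r) := by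
    intro r
    have hS : ({w : V | dist v₀ w ≤ r + M}).Finite := hfin v₀ _
    have hT : ({w : V | dist v₀ w ≤ r + 2 * M}).Finite := hfin v₀ _
    have h1 : IsCompact (⋃ x ∈ {w : V | dist v₀ w ≤ r + M}, ⋃ y ∈ {w : V | dist v₀ w ≤ r + 2 * M},
        {z : Gr V M | ∃ p : Pt V M, p.x = x ∧ p.y = y ∧ cl p = z}) := by
      refine hS.isCompact_biUnion fun x _ => hT.isCompact_biUnion fun y _ => ?_
      by_cases hxy : dist x y ≤ M
      · exact edge_compact x y hxy
      · have : {z : Gr V M | ∃ p : Pt V M, p.x = x ∧ p.y = y ∧ cl p = z} = ∅ := by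
          rw [Set.eq_empty_iff_forall_notMem]
          rintro z ⟨p, hx, hy, -⟩
          apply hxy
          rw [← hx, ← hy]; exact p.hM
        rw [this]; exact isCompact_empty
    refine h1.of_isClosed_subset Metric.isClosed_closedBall ?_
    intro z hz
    obtain ⟨p, rfl⟩ := SeparationQuotient.surjective_mk z
    rw [Metric.mem_closedBall] at hz
    change dist (cl p) (cl (vtx hM v₀)) ≤ r at hz
    rw [dist_cl, dist_vtx] at hz
    have h2 : dist v₀ p.x ≤ r + M := by
      have h3 := u_add p v₀ p.x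
      rw [u_x] at h3
      have := p.h1; have := p.hM
      linarith
    have h4 : dist v₀ p.y ≤ r + 2 * M := by
      have h5 := dist_triangle v₀ p.x p.y
      have := p.hM
      linarith
    simp only [Set.mem_iUnion]
    exact ⟨p.x, h2, p.y, h4, p, rfl, rfl, rfl⟩
  refine ⟨fun x r => ?_⟩
  refine (hb (dist x (cl (vtx hM v₀)) + r)).of_isClosed_subset Metric.isClosed_closedBall ?_
  intro z hz
  rw [Metric.mem_closedBall] at hz ⊢
  have := dist_triangle z x (cl (vtx hM v₀))
  linarith

end

end Pool.Agent.Y166.CD
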